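import Mathlib

/-!
Words of two labelled chains and pairs of finite sets.

`la`, `lb` are the labels of the two chains `a 0, a 1, ...` and `b 0, b 1, ...`.
A pair of finite sets `(X, Y)` encodes a word; the statement that `b j` stands before `a i`
is one difference inequality between the counting functions of `X` and `Y`.
-/

namespace Pool.Agent.Helper16.PEul

/-- number of elements of `X` below `m` -/
def cnt (X : Finset ℕ) (m : ℕ) : ℕ := (X.filter (fun x => x < m)).card

/-- number of label descents before index `i` -/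
def st (l : ℕ → ℕ) : ℕ → ℕ
  | 0 => 0
  | i + 1 => st l i + (if l (i + 1) < l i then 1 else 0)

/-- number of label ascents before index `i` -/
def wk (l : ℕ → ℕ) : ℕ → ℕ
  | 0 => 0
  | i + 1 => wk l i + (if l (i + 1) < l i then 0 else 1)

theorem st_add_wk (l : ℕ → ℕ) (i : ℕ) : st l i + wk l i = i := by
  induction i with
  | zero => rfl
  | succ i ih =>
    rw [st, wk]
    split_ifs <;> omega

theorem st_mono (l : ℕ → ℕ) {i j : ℕ} (h : i ≤ j) : st l i ≤ st l j := by
  induction j, h using Nat.le_induction with
  | base => exact le_refl _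
  | succ j _ ih => rw [st]; exact ih.trans (Nat.le_add_right _ _)

theorem wk_mono (l : ℕ → ℕ) {i j : ℕ} (h : i ≤ j) : wk l i ≤ wk l j := by
  induction j, h using Nat.le_induction with
  | base => exact le_refl _
  | succ j _ ih => rw [wk]; exact ih.trans (Nat.le_add_right _ _)

/-- if no descent occurs between `i` and `j`, the label increases -/
theorem le_of_st_eq (l : ℕ → ℕ) {i j : ℕ} (h : i ≤ j) (hs : st l i = st l j) : l i ≤ l j := by
  induction j, h using Nat.le_induction with
  | base => exact le_refl _
  | succ j hij ih =>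
    have h1 := st_mono l hij
    rw [st] at hs
    by_cases hlt : l (j + 1) < l j
    · rw [if_pos hlt] at hs
      omega
    · rw [if_neg hlt] at hs
      exact (ih (by omega)).trans (not_lt.1 hlt)

/-- if no ascent occurs between `i` and `j`, the label decreases -/
theorem le_of_wk_eq (l : ℕ → ℕ) {i j : ℕ} (h : i ≤ j) (hs : wk l i = wk l j) : l j ≤ l i := by
  induction j, h using Nat.le_induction with
  | base => exact le_refl _
  | succ j hij ih =>
    have h1 := wk_mono l hij
    rw [wk] at hs
    by_cases hlt : l (j + 1) < l j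
    · rw [if_pos hlt] at hs
      exact hlt.le.trans (ih (by omega))
    · rw [if_neg hlt] at hs
      omega

theorem cnt_mono (X : Finset ℕ) {m k : ℕ} (h : m ≤ k) : cnt X m ≤ cnt X k := by
  apply Finset.card_le_card
  intro x hx
  rw [Finset.mem_filter] at hx ⊢
  exact ⟨hx.1, hx.2.trans_le h⟩

theorem cnt_zero (X : Finset ℕ) : cnt X 0 = 0 := by
  unfold cnt
  rw [Finset.card_eq_zero, Finset.filter_eq_empty_iff]
  intro x _
  omega

theorem cnt_succ (X : Finset ℕ) (m : ℕ) : cnt X (m + 1) = cnt X m + (if m ∈ X then 1 else 0) := by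
  unfold cnt
  by_cases h : m ∈ X
  · rw [if_pos h]
    have : X.filter (fun x => x < m + 1) = insert m (X.filter (fun x => x < m)) := by
      ext x
      simp only [Finset.mem_filter, Finset.mem_insert]
      constructor
      · rintro ⟨h1, h2⟩
        rcases Nat.lt_succ_iff_lt_or_eq.1 h2 with h3 | h3
        · exact Or.inr ⟨h1, h3⟩
        · exact Or.inl h3
      · rintro (h1 | ⟨h1, h2⟩)
        · subst h1; exact ⟨h, Nat.lt_succ_self _⟩
        · exact ⟨h1, by omega⟩
    rw [this, Finset.card_insert_of_notMem]
    simp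
  · rw [if_neg h, add_zero]
    congr 1
    ext x
    simp only [Finset.mem_filter]
    constructor
    · rintro ⟨h1, h2⟩
      refine ⟨h1, ?_⟩
      rcases Nat.lt_succ_iff_lt_or_eq.1 h2 with h3 | h3
      · exact h3
      · subst h3; exact absurd h1 h
    · rintro ⟨h1, h2⟩
      exact ⟨h1, by omega⟩

theorem cnt_succ_le (X : Finset ℕ) (m : ℕ) : cnt X (m + 1) ≤ cnt X m + 1 := by
  rw [cnt_succ]; split_ifs <;> omega

/-- above the whole set the counting function is the cardinality -/
theorem cnt_eq_card {X : Finset ℕ} {M m : ℕ} (hX : X ⊆ Finset.range M) (h : M ≤ m) :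
    cnt X m = X.card := by
  unfold cnt
  rw [Finset.filter_true_of_mem]
  intro x hx
  exact (Finset.mem_range.1 (hX hx)).trans_le h

/-- inserting an element does not change the counts below it -/
theorem cnt_insert_of_le {X : Finset ℕ} {t m : ℕ} (h : m ≤ t) : cnt (insert t X) m = cnt X m := by
  unfold cnt
  congr 1
  ext x
  simp only [Finset.mem_filter, Finset.mem_insert]
  constructor
  · rintro ⟨h1 | h1, h2⟩
    · omega
    · exact ⟨h1, h2⟩
  · rintro ⟨h1, h2⟩
    exact ⟨Or.inr h1, h2⟩

/-- `c i j = 1` if the label of `a i` is smaller than the label of `b j` -/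
def cc (la lb : ℕ → ℕ) (i j : ℕ) : ℕ := if la i < lb j then 1 else 0

/-- `b j` stands before `a i` -/
def E (la lb : ℕ → ℕ) (X Y : Finset ℕ) (i j : ℕ) : Prop :=
  cnt Y (wk lb j + st la i + (1 - cc la lb i j)) + st lb j + cc la lb i j ≤
    cnt X (wk la i + st lb j + cc la lb i j) + st la i

theorem cc_le (la lb : ℕ → ℕ) (i j : ℕ) : cc la lb i j ≤ 1 := by
  unfold cc; split_ifs <;> omega

/-- the roles of the two chains can be exchanged -/
theorem E_swap {la lb : ℕ → ℕ} (h : ∀ i j, la i ≠ lb j) (X Y : Finset ℕ) (i j : ℕ) :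
    E lb la Y X j i ↔ ¬ E la lb X Y i j := by
  unfold E cc
  by_cases hc : la i < lb j
  · rw [if_pos hc, if_neg (not_lt.2 hc.le)]
    have e1 : wk la i + st lb j + (1 - 0) = wk la i + st lb j + 1 := rfl
    have e2 : wk lb j + st la i + (1 - 1) = wk lb j + st la i + 0 := rfl
    rw [e1, e2]
    constructor <;> intro h' <;> omega
  · have hc' : lb j < la i := lt_of_le_of_ne (not_lt.1 hc) (fun e => h i j e.symm)
    rw [if_neg hc, if_pos hc']
    have e1 : wk la i + st lb j + (1 - 1) = wk la i + st lb j + 0 := rfl
    have e2 : wk lb j + st la i + (1 - 0) = wk lb j + st la i + 1 := rfl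
    rw [e1, e2]
    constructor <;> intro h' <;> omega

/-- monotonicity in `j` -/
theorem E_mono_right {la lb : ℕ → ℕ} (X Y : Finset ℕ) (i j : ℕ)
    (h : E la lb X Y i (j + 1)) : E la lb X Y i j := by
  unfold E at h ⊢
  have hc1 := cc_le la lb i j
  have hc2 := cc_le la lb i (j + 1)
  have hw := st_add_wk lb j
  have hw' := st_add_wk lb (j + 1)
  -- the offset changes by 0 or 1
  have key : st lb (j + 1) + cc la lb i (j + 1) = st lb j + cc la lb i j ∨
      st lb (j + 1) + cc la lb i (j + 1) = st lb j + cc la lb i j + 1 := by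
    rw [st]
    unfold cc
    split_ifs <;> omega
  have hY : wk lb (j + 1) + st la i + (1 - cc la lb i (j + 1)) + (st lb (j + 1) +
      cc la lb i (j + 1)) = j + 2 + st la i := by omega
  have hY' : wk lb j + st la i + (1 - cc la lb i j) + (st lb j + cc la lb i j) =
      j + 1 + st la i := by omega
  rcases key with k | k
  · have e1 : wk lb j + st la i + (1 - cc la lb i j) ≤
        wk lb (j + 1) + st la i + (1 - cc la lb i (j + 1)) := by omega
    have m1 := cnt_mono Y e1
    have e2 : wk la i + st lb (j + 1) + cc la lb i (j + 1) =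
        wk la i + st lb j + cc la lb i j := by omega
    rw [e2] at h
    omega
  · have e1 : wk lb j + st la i + (1 - cc la lb i j) =
        wk lb (j + 1) + st la i + (1 - cc la lb i (j + 1)) := by omega
    have e2 : wk la i + st lb (j + 1) + cc la lb i (j + 1) =
        wk la i + st lb j + cc la lb i j + 1 := by omega
    rw [e2] at h
    have m1 := cnt_succ_le X (wk la i + st lb j + cc la lb i j)
    rw [e1]
    omega

theorem E_mono_right' {la lb : ℕ → ℕ} (X Y : Finset ℕ) (i : ℕ) {j j' : ℕ} (hj : j ≤ j')
    (h : E la lb X Y i j') : E la lb X Y i j := by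
  induction j', hj using Nat.le_induction with
  | base => exact h
  | succ j' _ ih => exact ih (E_mono_right X Y i j' h)

end Pool.Agent.Helper16.PEul
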