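import Pool.Agent.Helper16.PEul.Words

/-!
The words are exactly the linear extensions of a union of two chains.
-/

namespace Pool.Agent.Helper16.PEul

/-- `l` lists the elements of `U`, each once, and no element is listed (as the head is the last
letter: occurs in the word) after a strictly larger one -/
structure IsExt (le : ℕ → ℕ → Prop) (U : Finset ℕ) (l : List ℕ) : Prop where
  nodup : l.Nodup
  set : l.toFinset = U
  ord : l.Pairwise (fun x y => ¬ le x y)

/-- the elements with indices at most `p`, `q` -/
def UU (a b : ℕ → ℕ) (p q : ℕ) : Finset ℕ :=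
  (Finset.Icc 1 p).image a ∪ (Finset.Icc 1 q).image b

theorem mem_UU {a b : ℕ → ℕ} {p q x : ℕ} :
    x ∈ UU a b p q ↔ (∃ i, 1 ≤ i ∧ i ≤ p ∧ a i = x) ∨ (∃ j, 1 ≤ j ∧ j ≤ q ∧ b j = x) := by
  unfold UU
  rw [Finset.mem_union, Finset.mem_image, Finset.mem_image]
  simp only [Finset.mem_Icc, and_assoc]

theorem UU_succ_a (a b : ℕ → ℕ) (p q : ℕ) : UU a b (p + 1) q = insert (a (p + 1)) (UU a b p q) := by
  ext x
  rw [Finset.mem_insert, mem_UU, mem_UU]
  constructor
  · rintro (⟨i, h1, h2, rfl⟩ | h)
    · rcases Nat.lt_or_ge p i with h3 | h3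
      · have : i = p + 1 := by omega
        subst this
        exact Or.inl rfl
      · exact Or.inr (Or.inl ⟨i, h1, h3, rfl⟩)
    · exact Or.inr (Or.inr h)
  · rintro (rfl | ⟨i, h1, h2, rfl⟩ | h)
    · exact Or.inl ⟨p + 1, by omega, le_rfl, rfl⟩
    · exact Or.inl ⟨i, h1, by omega, rfl⟩
    · exact Or.inr h

theorem UU_succ_b (a b : ℕ → ℕ) (p q : ℕ) : UU a b p (q + 1) = insert (b (q + 1)) (UU a b p q) := by
  ext x
  rw [Finset.mem_insert, mem_UU, mem_UU]
  constructor
  · rintro (h | ⟨i, h1, h2, rfl⟩)
    · exact Or.inr (Or.inl h)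
    · rcases Nat.lt_or_ge q i with h3 | h3
      · have : i = q + 1 := by omega
        subst this
        exact Or.inl rfl
      · exact Or.inr (Or.inr ⟨i, h1, h3, rfl⟩)
  · rintro (rfl | h | ⟨i, h1, h2, rfl⟩)
    · exact Or.inr ⟨q + 1, by omega, le_rfl, rfl⟩
    · exact Or.inl h
    · exact Or.inr ⟨i, h1, by omega, rfl⟩

/-- data of two chains -/
structure Chains (le : ℕ → ℕ → Prop) (a b : ℕ → ℕ) (P Q : ℕ) : Prop where
  injA : Function.Injective a
  injB : Function.Injective b
  ne : ∀ i j, a i ≠ b j
  chA : ∀ i i', 1 ≤ i → i < i' → i' ≤ P → le (a i) (a i') ∧ ¬ le (a i') (a i)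
  chB : ∀ j j', 1 ≤ j → j < j' → j' ≤ Q → le (b j) (b j') ∧ ¬ le (b j') (b j)

variable {le : ℕ → ℕ → Prop} {a b : ℕ → ℕ} {P Q : ℕ}

theorem notMem_UU_a (h : Chains le a b P Q) (p q : ℕ) : a (p + 1) ∉ UU a b p q := by
  rw [mem_UU]
  rintro (⟨i, h1, h2, h3⟩ | ⟨j, h1, h2, h3⟩)
  · have := h.injA h3
    omega
  · exact h.ne _ _ h3.symm

theorem notMem_UU_b (h : Chains le a b P Q) (p q : ℕ) : b (q + 1) ∉ UU a b p q := by
  rw [mem_UU]
  rintro (⟨i, h1, h2, h3⟩ | ⟨j, h1, h2, h3⟩)
  · exact h.ne _ _ h3
  · have := h.injB h3
    omega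

theorem isExt_cons {U : Finset ℕ} {x : ℕ} {t : List ℕ} (hx : x ∉ U) (ht : IsExt le U t)
    (ho : ∀ y ∈ U, ¬ le x y) : IsExt le (insert x U) (x :: t) := by
  refine ⟨?_, ?_, ?_⟩
  · rw [List.nodup_cons]
    refine ⟨?_, ht.nodup⟩
    rw [← List.mem_toFinset, ht.set]
    exact hx
  · rw [List.toFinset_cons, ht.set]
  · rw [List.pairwise_cons]
    refine ⟨?_, ht.ord⟩
    intro y hy
    rw [← List.mem_toFinset, ht.set] at hy
    exact ho y hy

theorem isExt_tail {U : Finset ℕ} {x : ℕ} {t : List ℕ} (hx : x ∉ U)
    (h : IsExt le (insert x U) (x :: t)) : IsExt le U t ∧ ∀ y ∈ U, ¬ le x y := by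
  have h1 := List.nodup_cons.1 h.nodup
  have h2 := List.pairwise_cons.1 h.ord
  have h3 : t.toFinset = U := by
    have h4 := h.set
    rw [List.toFinset_cons] at h4
    have h5 : x ∉ t.toFinset := by rw [List.mem_toFinset]; exact h1.1
    rw [← Finset.erase_insert h5, h4, Finset.erase_insert hx]
  refine ⟨⟨h1.2, h3, h2.2⟩, ?_⟩
  intro y hy
  rw [← h3, List.mem_toFinset] at hy
  exact h2.1 y hy

theorem mem_WW_iff (h : Chains le a b P Q) : ∀ N p q : ℕ, p + q = N → p ≤ P → q ≤ Q →
    ∀ l, (l ∈ (WW le a b p q).1 ∪ (WW le a b p q).2 ↔ IsExt le (UU a b p q) l) := by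
  classical
  intro N
  induction N with
  | zero =>
    intro p q hpq hp hq l
    have hp0 : p = 0 := by omega
    have hq0 : q = 0 := by omega
    subst hp0; subst hq0
    have hU : UU a b 0 0 = ∅ := by
      rw [Finset.eq_empty_iff_forall_notMem]
      intro x hx
      rw [mem_UU] at hx
      rcases hx with ⟨i, h1, h2, _⟩ | ⟨i, h1, h2, _⟩ <;> omega
    rw [WW_zero, WW_zero_b, Finset.union_empty, Finset.mem_singleton, hU]
    constructor
    · rintro rfl
      exact ⟨List.nodup_nil, rfl, List.Pairwise.nil⟩
    · intro hl
      rw [← List.toFinset_eq_empty_iff]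
      exact hl.set
  | succ N ih =>
    intro p q hpq hp hq l
    rw [Finset.mem_union]
    constructor
    · rintro (hl | hl)
      · cases p with
        | zero =>
          cases q with
          | zero => omega
          | succ q => rw [WW_zero_a] at hl; exact absurd hl (Finset.notMem_empty _)
        | succ p =>
          rw [WW_a] at hl
          by_cases hrow : ∀ j ≤ q, CA le a b (p + 1) j
          · rw [if_pos hrow, Finset.mem_image] at hl
            obtain ⟨t, ht, rfl⟩ := hl
            rw [ih p q (by omega) (by omega) hq] at ht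
            rw [UU_succ_a]
            refine isExt_cons (notMem_UU_a h p q) ht ?_
            intro y hy
            rw [mem_UU] at hy
            rcases hy with ⟨i, h1, h2, rfl⟩ | ⟨j, h1, h2, rfl⟩
            · exact (h.chA i (p + 1) h1 (by omega) hp).2
            · rcases hrow j h2 with h3 | h3
              · omega
              · exact h3.2
          · rw [if_neg hrow] at hl
            exact absurd hl (Finset.notMem_empty _)
      · cases q with
        | zero => rw [WW_zero_b] at hl; exact absurd hl (Finset.notMem_empty _)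
        | succ q =>
          rw [WW_b] at hl
          by_cases hrow : ∀ i ≤ p, CB le a b i (q + 1)
          · rw [if_pos hrow, Finset.mem_image] at hl
            obtain ⟨t, ht, rfl⟩ := hl
            rw [ih p q (by omega) hp (by omega)] at ht
            rw [UU_succ_b]
            refine isExt_cons (notMem_UU_b h p q) ht ?_
            intro y hy
            rw [mem_UU] at hy
            rcases hy with ⟨i, h1, h2, rfl⟩ | ⟨j, h1, h2, rfl⟩
            · rcases (hrow i h2).2 with h3 | h3
              · omega
              · exact h3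
            · exact (h.chB j (q + 1) h1 (by omega) hq).2
          · rw [if_neg hrow] at hl
            exact absurd hl (Finset.notMem_empty _)
    · intro hl
      cases l with
      | nil =>
        exfalso
        have hs := hl.set
        rw [List.toFinset_nil] at hs
        rcases Nat.eq_zero_or_pos p with hp0 | hp0
        · have : b 1 ∈ UU a b p q := mem_UU.2 (Or.inr ⟨1, le_rfl, by omega, rfl⟩)
          rw [← hs] at this
          exact Finset.notMem_empty _ this
        · have : a 1 ∈ UU a b p q := mem_UU.2 (Or.inl ⟨1, le_rfl, by omega, rfl⟩)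
          rw [← hs] at this
          exact Finset.notMem_empty _ this
      | cons x t =>
        have hx : x ∈ UU a b p q := by
          rw [← hl.set, List.mem_toFinset]
          exact List.mem_cons_self
        have hmem : ∀ y ∈ UU a b p q, y ≠ x → ¬ le x y := by
          intro y hy hne
          rw [← hl.set, List.mem_toFinset] at hy
          rcases List.mem_cons.1 hy with h1 | h1
          · exact absurd h1 hne
          · exact (List.pairwise_cons.1 hl.ord).1 y h1
        rw [mem_UU] at hx
        rcases hx with ⟨i, h1, h2, rfl⟩ | ⟨j, h1, h2, rfl⟩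
        · left
          cases p with
          | zero => omega
          | succ p =>
            have hi : i = p + 1 := by
              by_contra hne
              refine hmem (a (p + 1)) (mem_UU.2 (Or.inl ⟨p + 1, by omega, le_rfl, rfl⟩)) ?_
                (h.chA i (p + 1) h1 (by omega) hp).1
              intro e
              exact hne (h.injA e).symm
            subst hi
            rw [UU_succ_a] at hl
            obtain ⟨ht, ho⟩ := isExt_tail (notMem_UU_a h p q) hl
            have hrow : ∀ j ≤ q, CA le a b (p + 1) j := by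
              intro j hj
              rcases Nat.eq_zero_or_pos j with hj0 | hj0
              · exact Or.inl hj0
              · exact Or.inr ⟨by omega, ho (b j) (mem_UU.2 (Or.inr ⟨j, hj0, hj, rfl⟩))⟩
            rw [WW_a, if_pos hrow, Finset.mem_image]
            exact ⟨t, (ih p q (by omega) (by omega) hq t).2 ht, rfl⟩
        · right
          cases q with
          | zero => omega
          | succ q =>
            have hi : j = q + 1 := by
              by_contra hne
              refine hmem (b (q + 1)) (mem_UU.2 (Or.inr ⟨q + 1, by omega, le_rfl, rfl⟩)) ?_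
                (h.chB j (q + 1) h1 (by omega) hq).1
              intro e
              exact hne (h.injB e).symm
            subst hi
            rw [UU_succ_b] at hl
            obtain ⟨ht, ho⟩ := isExt_tail (notMem_UU_b h p q) hl
            have hrow : ∀ i ≤ p, CB le a b i (q + 1) := by
              intro i hi
              refine ⟨by omega, ?_⟩
              rcases Nat.eq_zero_or_pos i with hi0 | hi0
              · exact Or.inl hi0
              · exact Or.inr (ho (a i) (mem_UU.2 (Or.inl ⟨i, hi0, hi, rfl⟩)))
            rw [WW_b, if_pos hrow, Finset.mem_image]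
            exact ⟨t, (ih p q (by omega) hp (by omega) t).2 ht, rfl⟩

/-- the numbers of linear extensions of a union of two chains by number of descents are
log-concave -/
theorem ext_logconcave (h : Chains le a b P Q) (k d : ℕ) (F : ℕ → Finset (List ℕ))
    (hF : ∀ k l, l ∈ F k ↔ IsExt le (UU a b P Q) l ∧ des l = k) :
    (F k).card * (F (k + d + 2)).card ≤ (F (k + 1)).card * (F (k + d + 1)).card := by
  classical
  have key : ∀ k, (F k).card =
      (slice (labA a) (labB b) (CA le a b) (CB le a b) P Q k).card := by
    intro k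
    rw [← card_words h.ne]
    congr 1
    ext l
    rw [hF, Finset.mem_filter, mem_WW_iff h (P + Q) P Q rfl le_rfl le_rfl]
  rw [key, key, key, key]
  exact slice_logconcave _ _ _ _ _ _

end Pool.Agent.Helper16.PEul
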