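import Pool.Agent.Helper16.PEul.Rec2

/-!
Log-concavity of the numbers of encoding pairs: the inequality of Daykin for the distributive
lattice of pairs of integer valued functions.
-/

namespace Pool.Agent.Helper16.PEul

open scoped FinsetFamily

variable {la lb : ℕ → ℕ}

/-- shifted counting functions of a pair of sets -/
def phi (s : ℤ) (z : Finset ℕ × Finset ℕ) : (ℕ → ℤ) × (ℕ → ℤ) :=
  (fun m => (cnt z.1 m : ℤ) + s, fun m => (cnt z.2 m : ℤ) + s)

theorem eq_of_cnt_eq {X Y : Finset ℕ} (h : ∀ m, cnt X m = cnt Y m) : X = Y := by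
  ext m
  have h1 := h m
  have h2 := h (m + 1)
  rw [cnt_succ, cnt_succ] at h2
  by_cases hx : m ∈ X
  · by_cases hy : m ∈ Y
    · exact ⟨fun _ => hy, fun _ => hx⟩
    · rw [if_pos hx, if_neg hy] at h2; omega
  · by_cases hy : m ∈ Y
    · rw [if_neg hx, if_pos hy] at h2; omega
    · exact ⟨fun h => absurd h hx, fun h => absurd h hy⟩

theorem phi_injective (s : ℤ) : Function.Injective (phi s) := by
  intro z w h
  have h1 : ∀ m, cnt z.1 m = cnt w.1 m := by
    intro m
    have := congrFun (congrArg Prod.fst h) m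
    simp only [phi] at this
    omega
  have h2 : ∀ m, cnt z.2 m = cnt w.2 m := by
    intro m
    have := congrFun (congrArg Prod.snd h) m
    simp only [phi] at this
    omega
  exact Prod.ext (eq_of_cnt_eq h1) (eq_of_cnt_eq h2)

/-- integer functions with unit steps are counting functions -/
theorem exists_set_of_steps {f : ℕ → ℤ} {s : ℤ} {M κ : ℕ} (h0 : f 0 = s)
    (h1 : ∀ m, f (m + 1) = f m ∨ f (m + 1) = f m + 1) (h2 : ∀ m, M ≤ m → f m = s + κ) :
    ∃ X : Finset ℕ, X ⊆ Finset.range M ∧ X.card = κ ∧ ∀ m, (cnt X m : ℤ) + s = f m := by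
  classical
  refine ⟨(Finset.range M).filter (fun m => f (m + 1) ≠ f m), Finset.filter_subset _ _, ?_, ?_⟩
  · have key : ∀ m, (cnt ((Finset.range M).filter (fun m => f (m + 1) ≠ f m)) m : ℤ) + s =
        f m := by
      intro m
      induction m with
      | zero => rw [cnt_zero, h0]; simp
      | succ m ih =>
        rw [cnt_succ]
        by_cases hm : m ∈ (Finset.range M).filter (fun m => f (m + 1) ≠ f m)
        · rw [if_pos hm]
          rw [Finset.mem_filter] at hm
          rcases h1 m with h | h
          · exact absurd h hm.2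
          · push_cast
            omega
        · rw [if_neg hm]
          rw [Finset.mem_filter, Finset.mem_range, not_and, not_not] at hm
          have : f (m + 1) = f m := by
            rcases Nat.lt_or_ge m M with h | h
            · exact hm h
            · rw [h2 m h, h2 (m + 1) (by omega)]
          rw [this, ← ih]
          simp
    have e1 := key M
    have e2 := h2 M le_rfl
    have e3 : cnt ((Finset.range M).filter (fun m => f (m + 1) ≠ f m)) M =
        ((Finset.range M).filter (fun m => f (m + 1) ≠ f m)).card :=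
      cnt_eq_card (Finset.filter_subset _ _) le_rfl
    rw [e3, e2] at e1
    omega
  · intro m
    induction m with
    | zero => rw [cnt_zero, h0]; simp
    | succ m ih =>
      rw [cnt_succ]
      by_cases hm : m ∈ (Finset.range M).filter (fun m => f (m + 1) ≠ f m)
      · rw [if_pos hm]
        rw [Finset.mem_filter] at hm
        rcases h1 m with h | h
        · exact absurd h hm.2
        · push_cast
          omega
      · rw [if_neg hm]
        rw [Finset.mem_filter, Finset.mem_range, not_and, not_not] at hm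
        have : f (m + 1) = f m := by
          rcases Nat.lt_or_ge m M with h | h
          · exact hm h
          · rw [h2 m h, h2 (m + 1) (by omega)]
        rw [this, ← ih]
        simp

/-- the statement `E` for integer valued functions -/
def EF (la lb : ℕ → ℕ) (f g : ℕ → ℤ) (i j : ℕ) : Prop :=
  g (wk lb j + st la i + (1 - cc la lb i j)) + st lb j + cc la lb i j ≤
    f (wk la i + st lb j + cc la lb i j) + st la i

theorem E_iff_EF {X Y : Finset ℕ} {f g : ℕ → ℤ} {s : ℤ} (hf : ∀ m, (cnt X m : ℤ) + s = f m)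
    (hg : ∀ m, (cnt Y m : ℤ) + s = g m) (i j : ℕ) :
    E la lb X Y i j ↔ EF la lb f g i j := by
  unfold E EF
  rw [← hf, ← hg]
  omega

/-- the pairs of words with `k` descents -/
noncomputable def slice (la lb : ℕ → ℕ) (CA CB : ℕ → ℕ → Prop) (p q k : ℕ) :
    Finset (Finset ℕ × Finset ℕ) :=
  (XY la lb CA CB p q).filter (fun z => z.1.card + st la p = k)

theorem mem_slice {CA CB : ℕ → ℕ → Prop} {p q k : ℕ} {z : Finset ℕ × Finset ℕ} :
    z ∈ slice la lb CA CB p q k ↔ IsXY la lb CA CB p q z ∧ z.1.card + st la p = k := by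
  unfold slice
  rw [Finset.mem_filter, mem_XY]

theorem max_step {a b a' b' : ℤ} (ha : a' = a ∨ a' = a + 1) (hb : b' = b ∨ b' = b + 1) :
    max a' b' = max a b ∨ max a' b' = max a b + 1 := by
  rcases le_total a b with h | h <;> rcases le_total a' b' with h' | h' <;>
    simp only [max_eq_left, max_eq_right, h, h'] <;> omega

theorem min_step {a b a' b' : ℤ} (ha : a' = a ∨ a' = a + 1) (hb : b' = b ∨ b' = b + 1) :
    min a' b' = min a b ∨ min a' b' = min a b + 1 := by
  rcases le_total a b with h | h <;> rcases le_total a' b' with h' | h' <;>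
    simp only [min_eq_left, min_eq_right, h, h'] <;> omega

theorem cnt_step (X : Finset ℕ) (s : ℤ) (m : ℕ) :
    (cnt X (m + 1) : ℤ) + s = (cnt X m : ℤ) + s ∨ (cnt X (m + 1) : ℤ) + s = (cnt X m : ℤ) + s + 1 := by
  rw [cnt_succ]
  split_ifs
  · right; push_cast; ring
  · left; push_cast; ring

/-- combining the first components -/
theorem exists_max {X X' : Finset ℕ} {M κ d : ℕ} (hX : X ⊆ Finset.range M)
    (hX' : X' ⊆ Finset.range M) (h1 : X.card = κ) (h2 : X'.card = κ + d + 2) :
    ∃ Z : Finset ℕ, Z ⊆ Finset.range M ∧ Z.card = κ + d + 1 ∧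
      ∀ m, (cnt Z m : ℤ) + 0 = max ((cnt X m : ℤ) + 0) ((cnt X' m : ℤ) + (-1)) := by
  refine exists_set_of_steps (s := 0) ?_ ?_ ?_
  · rw [cnt_zero, cnt_zero]; rfl
  · intro m
    exact max_step (cnt_step X 0 m) (cnt_step X' (-1) m)
  · intro m hm
    rw [cnt_eq_card hX hm, cnt_eq_card hX' hm, h1, h2]
    push_cast
    rw [max_eq_right (by omega)]
    ring

theorem exists_min {X X' : Finset ℕ} {M κ d : ℕ} (hX : X ⊆ Finset.range M)
    (hX' : X' ⊆ Finset.range M) (h1 : X.card = κ) (h2 : X'.card = κ + d + 2) :
    ∃ Z : Finset ℕ, Z ⊆ Finset.range M ∧ Z.card = κ + 1 ∧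
      ∀ m, (cnt Z m : ℤ) + (-1) = min ((cnt X m : ℤ) + 0) ((cnt X' m : ℤ) + (-1)) := by
  refine exists_set_of_steps (s := -1) ?_ ?_ ?_
  · rw [cnt_zero, cnt_zero]; rfl
  · intro m
    exact min_step (cnt_step X 0 m) (cnt_step X' (-1) m)
  · intro m hm
    rw [cnt_eq_card hX hm, cnt_eq_card hX' hm, h1, h2]
    push_cast
    rw [min_eq_left (by omega)]
    ring

theorem EF_max {f f' g g' : ℕ → ℤ} {i j : ℕ} :
    (EF la lb (fun m => max (f m) (f' m)) (fun m => max (g m) (g' m)) i j →
      EF la lb f g i j ∨ EF la lb f' g' i j) ∧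
    (EF la lb f g i j → EF la lb f' g' i j →
      EF la lb (fun m => max (f m) (f' m)) (fun m => max (g m) (g' m)) i j) := by
  simp only [EF]
  constructor
  · intro h
    rcases le_total (f (wk la i + st lb j + cc la lb i j)) (f' (wk la i + st lb j + cc la lb i j))
      with h1 | h1
    · right
      rw [max_eq_right h1] at h
      have := le_max_right (g (wk lb j + st la i + (1 - cc la lb i j)))
        (g' (wk lb j + st la i + (1 - cc la lb i j)))
      omega
    · left
      rw [max_eq_left h1] at h
      have := le_max_left (g (wk lb j + st la i + (1 - cc la lb i j)))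
        (g' (wk lb j + st la i + (1 - cc la lb i j)))
      omega
  · intro h h'
    have e1 := le_max_left (f (wk la i + st lb j + cc la lb i j))
      (f' (wk la i + st lb j + cc la lb i j))
    have e2 := le_max_right (f (wk la i + st lb j + cc la lb i j))
      (f' (wk la i + st lb j + cc la lb i j))
    rcases le_total (g (wk lb j + st la i + (1 - cc la lb i j)))
      (g' (wk lb j + st la i + (1 - cc la lb i j))) with h1 | h1
    · rw [max_eq_right h1]; omega
    · rw [max_eq_left h1]; omega

theorem EF_min {f f' g g' : ℕ → ℤ} {i j : ℕ} :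
    (EF la lb (fun m => min (f m) (f' m)) (fun m => min (g m) (g' m)) i j →
      EF la lb f g i j ∨ EF la lb f' g' i j) ∧
    (EF la lb f g i j → EF la lb f' g' i j →
      EF la lb (fun m => min (f m) (f' m)) (fun m => min (g m) (g' m)) i j) := by
  simp only [EF]
  constructor
  · intro h
    have e1 := min_le_left (f (wk la i + st lb j + cc la lb i j))
      (f' (wk la i + st lb j + cc la lb i j))
    have e2 := min_le_right (f (wk la i + st lb j + cc la lb i j))
      (f' (wk la i + st lb j + cc la lb i j))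
    rcases le_total (g (wk lb j + st la i + (1 - cc la lb i j)))
      (g' (wk lb j + st la i + (1 - cc la lb i j))) with h1 | h1
    · rw [min_eq_left h1] at h; left; omega
    · rw [min_eq_right h1] at h; right; omega
  · intro h h'
    have e1 := min_le_left (g (wk lb j + st la i + (1 - cc la lb i j)))
      (g' (wk lb j + st la i + (1 - cc la lb i j)))
    have e2 := min_le_right (g (wk lb j + st la i + (1 - cc la lb i j)))
      (g' (wk lb j + st la i + (1 - cc la lb i j)))
    rcases le_total (f (wk la i + st lb j + cc la lb i j)) (f' (wk la i + st lb j + cc la lb i j))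
      with h1 | h1
    · rw [min_eq_left h1]; omega
    · rw [min_eq_right h1]; omega

/-- **log-concavity** of the numbers of pairs by number of descents -/
theorem slice_logconcave (CA CB : ℕ → ℕ → Prop) (p q k d : ℕ) :
    (slice la lb CA CB p q k).card * (slice la lb CA CB p q (k + d + 2)).card ≤
      (slice la lb CA CB p q (k + 1)).card * (slice la lb CA CB p q (k + d + 1)).card := by
  classical
  have h1 : (slice la lb CA CB p q k).card =
      ((slice la lb CA CB p q k).image (phi 0)).card :=
    (Finset.card_image_of_injective _ (phi_injective 0)).symm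
  have h2 : (slice la lb CA CB p q (k + d + 2)).card =
      ((slice la lb CA CB p q (k + d + 2)).image (phi (-1))).card :=
    (Finset.card_image_of_injective _ (phi_injective (-1))).symm
  have h3 : (slice la lb CA CB p q (k + d + 1)).card =
      ((slice la lb CA CB p q (k + d + 1)).image (phi 0)).card :=
    (Finset.card_image_of_injective _ (phi_injective 0)).symm
  have h4 : (slice la lb CA CB p q (k + 1)).card =
      ((slice la lb CA CB p q (k + 1)).image (phi (-1))).card :=
    (Finset.card_image_of_injective _ (phi_injective (-1))).symm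
  have hD := Finset.le_card_infs_mul_card_sups ((slice la lb CA CB p q k).image (phi 0))
    ((slice la lb CA CB p q (k + d + 2)).image (phi (-1)))
  have common : ∀ z ∈ slice la lb CA CB p q k, ∀ w ∈ slice la lb CA CB p q (k + d + 2),
      ∃ κ κ' : ℕ, z.1.card = κ ∧ w.1.card = κ + d + 2 ∧ z.2.card = κ' ∧ w.2.card = κ' + d + 2 ∧
        κ + st la p = κ' + st lb q ∧ κ + st la p = k := by
    intro z hz w hw
    rw [mem_slice] at hz hw
    have e1 := hz.1.card
    have e2 := hw.1.card
    have e3 := hz.2
    have e4 := hw.2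
    exact ⟨z.1.card, z.2.card, rfl, by omega, rfl, by omega, by omega, by omega⟩
  have hsup : ((slice la lb CA CB p q k).image (phi 0)) ⊻
      ((slice la lb CA CB p q (k + d + 2)).image (phi (-1))) ⊆
      (slice la lb CA CB p q (k + d + 1)).image (phi 0) := by
    intro u hu
    rw [Finset.mem_sups] at hu
    obtain ⟨u1, hu1, u2, hu2, rfl⟩ := hu
    rw [Finset.mem_image] at hu1 hu2
    obtain ⟨z, hz, rfl⟩ := hu1
    obtain ⟨w, hw, rfl⟩ := hu2
    obtain ⟨κ, κ', c1, c2, c3, c4, c5, c6⟩ := common z hz w hw
    rw [mem_slice] at hz hw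
    obtain ⟨X, hX, hXc, hXf⟩ := exists_max hz.1.subX hw.1.subX c1 c2
    obtain ⟨Y, hY, hYc, hYf⟩ := exists_max hz.1.subY hw.1.subY c3 c4
    rw [Finset.mem_image]
    refine ⟨(X, Y), ?_, ?_⟩
    · rw [mem_slice]
      have hEF : ∀ i j, E la lb X Y i j ↔ EF la lb
          (fun m => max ((cnt z.1 m : ℤ) + 0) ((cnt w.1 m : ℤ) + (-1)))
          (fun m => max ((cnt z.2 m : ℤ) + 0) ((cnt w.2 m : ℤ) + (-1))) i j :=
        fun i j => E_iff_EF (s := 0) hXf hYf i j
      have hE1 : ∀ i j, E la lb z.1 z.2 i j ↔ EF la lb (fun m => (cnt z.1 m : ℤ) + 0)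
          (fun m => (cnt z.2 m : ℤ) + 0) i j :=
        fun i j => E_iff_EF (s := 0) (fun _ => rfl) (fun _ => rfl) i j
      have hE2 : ∀ i j, E la lb w.1 w.2 i j ↔ EF la lb (fun m => (cnt w.1 m : ℤ) + (-1))
          (fun m => (cnt w.2 m : ℤ) + (-1)) i j :=
        fun i j => E_iff_EF (s := -1) (fun _ => rfl) (fun _ => rfl) i j
      refine ⟨⟨hX, hY, by rw [hXc, hYc]; omega, ?_, ?_⟩, by rw [hXc]; omega⟩
      · intro i hi j hj h
        rcases EF_max.1 ((hEF i j).1 h) with h' | h'
        · exact hz.1.allA i hi j hj ((hE1 i j).2 h')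
        · exact hw.1.allA i hi j hj ((hE2 i j).2 h')
      · intro i hi j hj h
        by_cases ha : E la lb z.1 z.2 i j
        · by_cases hb : E la lb w.1 w.2 i j
          · exact absurd ((hEF i j).2 (EF_max.2 ((hE1 i j).1 ha) ((hE2 i j).1 hb))) h
          · exact hw.1.allB i hi j hj hb
        · exact hz.1.allB i hi j hj ha
    · refine Prod.ext ?_ ?_
      · funext m; exact hXf m
      · funext m; exact hYf m
  have hinf : ((slice la lb CA CB p q k).image (phi 0)) ⊼
      ((slice la lb CA CB p q (k + d + 2)).image (phi (-1))) ⊆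
      (slice la lb CA CB p q (k + 1)).image (phi (-1)) := by
    intro u hu
    rw [Finset.mem_infs] at hu
    obtain ⟨u1, hu1, u2, hu2, rfl⟩ := hu
    rw [Finset.mem_image] at hu1 hu2
    obtain ⟨z, hz, rfl⟩ := hu1
    obtain ⟨w, hw, rfl⟩ := hu2
    obtain ⟨κ, κ', c1, c2, c3, c4, c5, c6⟩ := common z hz w hw
    rw [mem_slice] at hz hw
    obtain ⟨X, hX, hXc, hXf⟩ := exists_min hz.1.subX hw.1.subX c1 c2
    obtain ⟨Y, hY, hYc, hYf⟩ := exists_min hz.1.subY hw.1.subY c3 c4
    rw [Finset.mem_image]
    refine ⟨(X, Y), ?_, ?_⟩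
    · rw [mem_slice]
      have hEF : ∀ i j, E la lb X Y i j ↔ EF la lb
          (fun m => min ((cnt z.1 m : ℤ) + 0) ((cnt w.1 m : ℤ) + (-1)))
          (fun m => min ((cnt z.2 m : ℤ) + 0) ((cnt w.2 m : ℤ) + (-1))) i j :=
        fun i j => E_iff_EF (s := -1) hXf hYf i j
      have hE1 : ∀ i j, E la lb z.1 z.2 i j ↔ EF la lb (fun m => (cnt z.1 m : ℤ) + 0)
          (fun m => (cnt z.2 m : ℤ) + 0) i j :=
        fun i j => E_iff_EF (s := 0) (fun _ => rfl) (fun _ => rfl) i j
      have hE2 : ∀ i j, E la lb w.1 w.2 i j ↔ EF la lb (fun m => (cnt w.1 m : ℤ) + (-1))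
          (fun m => (cnt w.2 m : ℤ) + (-1)) i j :=
        fun i j => E_iff_EF (s := -1) (fun _ => rfl) (fun _ => rfl) i j
      refine ⟨⟨hX, hY, by rw [hXc, hYc]; omega, ?_, ?_⟩, by rw [hXc]; omega⟩
      · intro i hi j hj h
        rcases EF_min.1 ((hEF i j).1 h) with h' | h'
        · exact hz.1.allA i hi j hj ((hE1 i j).2 h')
        · exact hw.1.allA i hi j hj ((hE2 i j).2 h')
      · intro i hi j hj h
        by_cases ha : E la lb z.1 z.2 i j
        · by_cases hb : E la lb w.1 w.2 i j
          · exact absurd ((hEF i j).2 (EF_min.2 ((hE1 i j).1 ha) ((hE2 i j).1 hb))) h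
          · exact hw.1.allB i hi j hj hb
        · exact hz.1.allB i hi j hj ha
    · refine Prod.ext ?_ ?_
      · funext m; exact hXf m
      · funext m; exact hYf m
  calc (slice la lb CA CB p q k).card * (slice la lb CA CB p q (k + d + 2)).card
      = _ * _ := by rw [h1, h2]
    _ ≤ _ := hD
    _ ≤ ((slice la lb CA CB p q (k + 1)).image (phi (-1))).card *
        ((slice la lb CA CB p q (k + d + 1)).image (phi 0)).card :=
      Nat.mul_le_mul (Finset.card_le_card hinf) (Finset.card_le_card hsup)
    _ = _ := by rw [← h3, ← h4]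

end Pool.Agent.Helper16.PEul
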