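import Pool.Agent.Helper16.PEul.Perm

/-!
Log-concavity for labelled posets that are a union of two chains, and Dilworth's theorem for
width two.
-/

namespace Pool.Agent.Helper16.PEul

section dilworth

variable {α : Type*} [DecidableEq α] {le : α → α → Prop}

theorem exists_max_elt (ha : ∀ a b, le a b → le b a → a = b)
    (ht : ∀ a b c, le a b → le b c → le a c) (T : Finset α) (hT : T.Nonempty) :
    ∃ m ∈ T, ∀ x ∈ T, le m x → x = m := by
  classical
  induction T using Finset.induction_on with
  | empty => exact absurd hT Finset.not_nonempty_empty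
  | insert a T _ ih =>
    rcases Finset.eq_empty_or_nonempty T with h | h
    · subst h
      refine ⟨a, Finset.mem_insert_self _ _, ?_⟩
      intro x hx _
      rw [Finset.mem_insert] at hx
      rcases hx with hx | hx
      · exact hx
      · exact absurd hx (Finset.notMem_empty _)
    · obtain ⟨m, hm, hmax⟩ := ih h
      by_cases hma : le m a
      · refine ⟨a, Finset.mem_insert_self _ _, ?_⟩
        intro x hx hax
        rw [Finset.mem_insert] at hx
        rcases hx with hx | hx
        · exact hx
        · have h1 := hmax x hx (ht _ _ _ hma hax)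
          subst h1
          exact ha _ _ hma hax
      · refine ⟨m, Finset.mem_insert_of_mem hm, ?_⟩
        intro x hx hmx
        rw [Finset.mem_insert] at hx
        rcases hx with hx | hx
        · subst hx; exact absurd hmx hma
        · exact hmax x hx hmx

/-- a finite poset without three pairwise incomparable elements is a union of two chains -/
theorem two_chains (hr : ∀ a, le a a) (ha : ∀ a b, le a b → le b a → a = b)
    (ht : ∀ a b c, le a b → le b c → le a c) : ∀ (N : ℕ) (T : Finset α), T.card = N →
    (∀ x ∈ T, ∀ y ∈ T, ∀ z ∈ T, x ≠ y → y ≠ z → x ≠ z →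
      le x y ∨ le y x ∨ le y z ∨ le z y ∨ le x z ∨ le z x) →
    ∃ C ⊆ T, (∀ x ∈ C, ∀ y ∈ C, le x y ∨ le y x) ∧
      (∀ x ∈ T \ C, ∀ y ∈ T \ C, le x y ∨ le y x) := by
  classical
  intro N
  induction N with
  | zero =>
    intro T hT _
    rw [Finset.card_eq_zero] at hT
    subst hT
    refine ⟨∅, Finset.Subset.refl _, ?_, ?_⟩
    · intro x hx; exact absurd hx (Finset.notMem_empty _)
    · intro x hx; simp at hx
  | succ N ih =>
    intro T hT hw
    have hne : T.Nonempty := by
      rw [← Finset.card_pos]; omega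
    obtain ⟨m, hm, hmax⟩ := exists_max_elt ha ht T hne
    obtain ⟨C, hC, hC1, hC2⟩ := ih (T.erase m) (by rw [Finset.card_erase_of_mem hm]; omega)
      (fun x hx y hy z hz => hw x (Finset.mem_of_mem_erase hx) y (Finset.mem_of_mem_erase hy)
        z (Finset.mem_of_mem_erase hz))
    by_cases hch : ∀ x ∈ T.erase m, ∀ y ∈ T.erase m, le x y ∨ le y x
    · refine ⟨T.erase m, Finset.erase_subset _ _, hch, ?_⟩
      have hsd : ∀ x ∈ T \ T.erase m, x = m := by
        intro x hx
        rw [Finset.mem_sdiff, Finset.mem_erase, not_and] at hx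
        by_contra hxm
        exact hx.2 hxm hx.1
      intro x hx y hy
      rw [hsd x hx, hsd y hy]
      exact Or.inl (hr m)
    · push Not at hch
      obtain ⟨x0, hx0, y0, hy0, hxy1, hxy2⟩ := hch
      -- the general pair of incomparable elements has one element in each chain
      have split : ∀ x ∈ T.erase m, ∀ y ∈ T.erase m, ¬ le x y → ¬ le y x →
          (x ∈ C ∧ y ∈ (T.erase m) \ C) ∨ (y ∈ C ∧ x ∈ (T.erase m) \ C) := by
        intro x hx y hy h1 h2
        by_cases hxC : x ∈ C
        · by_cases hyC : y ∈ C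
          · rcases hC1 x hxC y hyC with h | h
            · exact absurd h h1
            · exact absurd h h2
          · exact Or.inl ⟨hxC, Finset.mem_sdiff.2 ⟨hy, hyC⟩⟩
        · by_cases hyC : y ∈ C
          · exact Or.inr ⟨hyC, Finset.mem_sdiff.2 ⟨hx, hxC⟩⟩
          · rcases hC2 x (Finset.mem_sdiff.2 ⟨hx, hxC⟩) y (Finset.mem_sdiff.2 ⟨hy, hyC⟩) with h | h
            · exact absurd h h1
            · exact absurd h h2
      have chain_max : ∀ S : Finset α, S.Nonempty → (∀ x ∈ S, ∀ y ∈ S, le x y ∨ le y x) →
          ∃ u ∈ S, ∀ x ∈ S, le x u := by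
        intro S hS hSc
        obtain ⟨u, hu, hmu⟩ := exists_max_elt ha ht S hS
        refine ⟨u, hu, ?_⟩
        intro x hx
        rcases hSc x hx u hu with h | h
        · exact h
        · rw [hmu x hx h]; exact hr u
      set S1 := C.filter (fun x => ∃ y ∈ T.erase m, ¬ le x y ∧ ¬ le y x) with hS1
      set S2 := ((T.erase m) \ C).filter (fun x => ∃ y ∈ T.erase m, ¬ le x y ∧ ¬ le y x) with hS2
      have ne1 : S1.Nonempty := by
        rcases split x0 hx0 y0 hy0 hxy1 hxy2 with h | h
        · exact ⟨x0, Finset.mem_filter.2 ⟨h.1, y0, hy0, hxy1, hxy2⟩⟩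
        · exact ⟨y0, Finset.mem_filter.2 ⟨h.1, x0, hx0, hxy2, hxy1⟩⟩
      have ne2 : S2.Nonempty := by
        rcases split x0 hx0 y0 hy0 hxy1 hxy2 with h | h
        · exact ⟨y0, Finset.mem_filter.2 ⟨h.2, x0, hx0, hxy2, hxy1⟩⟩
        · exact ⟨x0, Finset.mem_filter.2 ⟨h.2, y0, hy0, hxy1, hxy2⟩⟩
      obtain ⟨u, hu, hmu⟩ := chain_max S1 ne1 (fun x hx y hy =>
        hC1 x (Finset.mem_filter.1 hx).1 y (Finset.mem_filter.1 hy).1)
      obtain ⟨v, hv, hmv⟩ := chain_max S2 ne2 (fun x hx y hy =>
        hC2 x (Finset.mem_filter.1 hx).1 y (Finset.mem_filter.1 hy).1)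
      rw [hS1, Finset.mem_filter] at hu
      rw [hS2, Finset.mem_filter] at hv
      obtain ⟨huC, yu, hyu, hyu1, hyu2⟩ := hu
      obtain ⟨hvC, yv, hyv, hyv1, hyv2⟩ := hv
      have huT : u ∈ T.erase m := hC huC
      have hvT : v ∈ T.erase m := (Finset.mem_sdiff.1 hvC).1
      have hvC' : v ∉ C := (Finset.mem_sdiff.1 hvC).2
      -- `yu` lies in the second chain, below `v`
      have h1 : le yu v := by
        refine hmv yu (Finset.mem_filter.2 ⟨?_, u, huT, hyu2, hyu1⟩)
        rcases split u huT yu hyu hyu1 hyu2 with h | h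
        · exact h.2
        · exact absurd huC (Finset.mem_sdiff.1 h.2).2
      have h2 : le yv u := by
        refine hmu yv (Finset.mem_filter.2 ⟨?_, v, hvT, hyv2, hyv1⟩)
        rcases split v hvT yv hyv hyv1 hyv2 with h | h
        · exact absurd h.1 hvC'
        · exact h.1
      have huv : ¬ le u v := fun h => hyv2 (ht _ _ _ h2 h)
      have hvu : ¬ le v u := fun h => hyu2 (ht _ _ _ h1 h)
      have hum : u ≠ m := Finset.ne_of_mem_erase huT
      have hvm : v ≠ m := Finset.ne_of_mem_erase hvT
      have hmu' : ¬ le m u := fun h => hum (hmax u (Finset.mem_of_mem_erase huT) h)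
      have hmv' : ¬ le m v := fun h => hvm (hmax v (Finset.mem_of_mem_erase hvT) h)
      have hcomp : le u m ∨ le v m := by
        have hne : u ≠ v := by rintro rfl; exact huv (hr _)
        rcases hw u (Finset.mem_of_mem_erase huT) v (Finset.mem_of_mem_erase hvT) m hm hne hvm hum
          with h | h | h | h | h | h
        · exact absurd h huv
        · exact absurd h hvu
        · exact Or.inr h
        · exact absurd h hmv'
        · exact Or.inl h
        · exact absurd h hmu'
      rcases hcomp with hle | hle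
      · refine ⟨insert m (C.filter (fun z => le z u)), ?_, ?_, ?_⟩
        · intro x hx
          rw [Finset.mem_insert] at hx
          rcases hx with rfl | hx
          · exact hm
          · exact Finset.mem_of_mem_erase (hC (Finset.mem_filter.1 hx).1)
        · intro x hx y hy
          rw [Finset.mem_insert, Finset.mem_filter] at hx hy
          rcases hx with rfl | ⟨hx1, hx2⟩
          · rcases hy with rfl | ⟨hy1, hy2⟩
            · exact Or.inl (hr _)
            · exact Or.inr (ht _ _ _ hy2 hle)
          · rcases hy with rfl | ⟨hy1, hy2⟩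
            · exact Or.inl (ht _ _ _ hx2 hle)
            · exact hC1 x hx1 y hy1
        · intro x hx y hy
          by_contra hcon
          push Not at hcon
          rw [Finset.mem_sdiff, Finset.mem_insert, not_or, Finset.mem_filter, not_and] at hx hy
          have hxT : x ∈ T.erase m := Finset.mem_erase.2 ⟨hx.2.1, hx.1⟩
          have hyT : y ∈ T.erase m := Finset.mem_erase.2 ⟨hy.2.1, hy.1⟩
          rcases split x hxT y hyT hcon.1 hcon.2 with h | h
          · exact hx.2.2 h.1 (hmu x (Finset.mem_filter.2 ⟨h.1, y, hyT, hcon.1, hcon.2⟩))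
          · exact hy.2.2 h.1 (hmu y (Finset.mem_filter.2 ⟨h.1, x, hxT, hcon.2, hcon.1⟩))
      · refine ⟨insert m (((T.erase m) \ C).filter (fun z => le z v)), ?_, ?_, ?_⟩
        · intro x hx
          rw [Finset.mem_insert] at hx
          rcases hx with rfl | hx
          · exact hm
          · exact Finset.mem_of_mem_erase (Finset.mem_sdiff.1 (Finset.mem_filter.1 hx).1).1
        · intro x hx y hy
          rw [Finset.mem_insert, Finset.mem_filter] at hx hy
          rcases hx with rfl | ⟨hx1, hx2⟩
          · rcases hy with rfl | ⟨hy1, hy2⟩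
            · exact Or.inl (hr _)
            · exact Or.inr (ht _ _ _ hy2 hle)
          · rcases hy with rfl | ⟨hy1, hy2⟩
            · exact Or.inl (ht _ _ _ hx2 hle)
            · exact hC2 x hx1 y hy1
        · intro x hx y hy
          by_contra hcon
          push Not at hcon
          rw [Finset.mem_sdiff, Finset.mem_insert, not_or, Finset.mem_filter, not_and] at hx hy
          have hxT : x ∈ T.erase m := Finset.mem_erase.2 ⟨hx.2.1, hx.1⟩
          have hyT : y ∈ T.erase m := Finset.mem_erase.2 ⟨hy.2.1, hy.1⟩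
          rcases split x hxT y hyT hcon.1 hcon.2 with h | h
          · exact hy.2.2 h.2 (hmv y (Finset.mem_filter.2 ⟨h.2, x, hxT, hcon.2, hcon.1⟩))
          · exact hx.2.2 h.2 (hmv x (Finset.mem_filter.2 ⟨h.2, y, hyT, hcon.1, hcon.2⟩))

end dilworth

variable {n : ℕ} {le : Fin n → Fin n → Prop}

/-- the word of a permutation -/
def wordOf (σ : Equiv.Perm (Fin n)) : List ℕ := (List.ofFn (fun i => (σ i).val)).reverse

theorem wordOf_injective : Function.Injective (wordOf (n := n)) := by
  intro σ τ h
  unfold wordOf at h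
  have h1 := List.reverse_injective h
  have h2 := List.ofFn_injective h1
  ext i
  exact congrFun h2 i

theorem isExt_wordOf (σ : Equiv.Perm (Fin n))
    (h : ∀ i j : Fin n, le (σ i) (σ j) → σ i ≠ σ j → i < j) :
    IsExt (leN le) (Finset.range n) (wordOf σ) := by
  refine ⟨?_, ?_, ?_⟩
  · unfold wordOf
    rw [List.nodup_reverse, List.nodup_ofFn]
    intro i j hij
    exact σ.injective (Fin.ext hij)
  · ext x
    unfold wordOf
    rw [List.mem_toFinset, List.mem_reverse, List.mem_ofFn, Finset.mem_range]
    constructor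
    · rintro ⟨i, rfl⟩
      exact (σ i).2
    · intro hx
      exact ⟨σ.symm ⟨x, hx⟩, by simp⟩
  · unfold wordOf
    rw [List.pairwise_reverse, List.pairwise_ofFn]
    intro i j hij hle
    rw [leN_val] at hle
    have := h j i hle (fun e => hij.ne (σ.injective e).symm)
    exact absurd this (not_lt.2 hij.le)

theorem exists_perm {l : List ℕ} (h : IsExt (leN le) (Finset.range n) l) :
    ∃ σ : Equiv.Perm (Fin n), (∀ i j : Fin n, le (σ i) (σ j) → σ i ≠ σ j → i < j) ∧
      wordOf σ = l := by
  classical
  have hlen : l.reverse.length = n := by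
    rw [List.length_reverse, ← List.toFinset_card_of_nodup h.nodup, h.set, Finset.card_range]
  have hlt : ∀ i (hi : i < l.reverse.length), l.reverse[i] < n := by
    intro i hi
    have h1 : l.reverse[i] ∈ l.toFinset := by
      rw [List.mem_toFinset, ← List.mem_reverse]
      exact List.getElem_mem hi
    rw [h.set] at h1
    exact Finset.mem_range.1 h1
  have hnd : l.reverse.Nodup := List.nodup_reverse.2 h.nodup
  let f : Fin n → Fin n := fun i => ⟨l.reverse[i.val]'(by rw [hlen]; exact i.2), hlt _ _⟩
  have hf : Function.Injective f := by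
    intro i j hij
    have h1 := congrArg Fin.val hij
    simp only [f] at h1
    exact Fin.ext ((List.Nodup.getElem_inj_iff hnd).1 h1)
  let σ : Equiv.Perm (Fin n) := Equiv.ofBijective f (Finite.injective_iff_bijective.1 hf)
  have hσ : wordOf σ = l := by
    unfold wordOf
    rw [List.reverse_eq_iff]
    apply List.ext_getElem
    · rw [List.length_ofFn, hlen]
    · intro i h1 h2
      rw [List.getElem_ofFn]
      rfl
  refine ⟨σ, ?_, hσ⟩
  intro i j hle hne
  by_contra hcon
  have hij : j < i := lt_of_le_of_ne (not_lt.1 hcon) (fun e => hne (by rw [e]))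
  have h1 := h.ord
  rw [← hσ] at h1
  unfold wordOf at h1
  rw [List.pairwise_reverse, List.pairwise_ofFn] at h1
  exact h1 hij ((leN_val le _ _).2 hle)

open Classical in
/-- the number of linear extensions with `k` descents -/
noncomputable def numExt (le : Fin n → Fin n → Prop) (k : ℕ) : ℕ :=
  ((Finset.univ : Finset (Equiv.Perm (Fin n))).filter
    (fun σ => (∀ i j : Fin n, le (σ i) (σ j) → σ i ≠ σ j → i < j) ∧
      ((Finset.univ : Finset (Fin n × Fin n)).filter
        (fun p => p.2.val = p.1.val + 1 ∧ σ p.2 < σ p.1)).card = k)).card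

theorem des_wordOf (σ : Equiv.Perm (Fin n)) :
    des (wordOf σ) = ((Finset.univ : Finset (Fin n × Fin n)).filter
        (fun p => p.2.val = p.1.val + 1 ∧ σ p.2 < σ p.1)).card := by
  unfold wordOf
  rw [des_reverse_ofFn]
  rfl

/-- log-concavity for unions of two chains -/
theorem numExt_logconcave (hr : ∀ a, le a a) (ha : ∀ a b, le a b → le b a → a = b)
    (ht : ∀ a b c, le a b → le b c → le a c) (S : Finset (Fin n))
    (hS : ∀ x ∈ S, ∀ y ∈ S, le x y ∨ le y x) (hS' : ∀ x ∉ S, ∀ y ∉ S, le x y ∨ le y x)
    (k d : ℕ) : numExt le k * numExt le (k + d + 2) ≤ numExt le (k + 1) * numExt le (k + d + 1) := by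
  classical
  obtain ⟨e, he1, he2, he3⟩ := exists_enum le hr ha ht S hS
  obtain ⟨e', he1', he2', he3'⟩ := exists_enum le hr ha ht Sᶜ
    (fun x hx y hy => hS' x (Finset.mem_compl.1 hx) y (Finset.mem_compl.1 hy))
  have inj : Function.Injective e := by
    intro i j hij
    rcases lt_trichotomy i j with h | h | h
    · exact absurd hij (he3 i j h).2
    · exact h
    · exact absurd hij.symm (he3 j i h).2
  have inj' : Function.Injective e' := by
    intro i j hij
    rcases lt_trichotomy i j with h | h | h
    · exact absurd hij (he3' i j h).2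
    · exact h
    · exact absurd hij.symm (he3' j i h).2
  have hch : Chains (leN le) (seq e 0) (seq e' 1) S.card (Sᶜ : Finset (Fin n)).card := by
    refine ⟨seq_injective e inj 0, seq_injective e' inj' 1, ?_, ?_, ?_⟩
    · intro i j hij
      by_cases hi : 1 ≤ i ∧ i ≤ S.card
      · by_cases hj : 1 ≤ j ∧ j ≤ (Sᶜ : Finset (Fin n)).card
        · rw [seq_of_mem e 0 hi.1 hi.2, seq_of_mem e' 1 hj.1 hj.2] at hij
          have h1 := he1 ⟨i - 1, by omega⟩
          have h2 := he1' ⟨j - 1, by omega⟩
          rw [Fin.ext hij] at h1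
          exact Finset.mem_compl.1 h2 h1
        · rw [seq_of_mem e 0 hi.1 hi.2, seq_of_notMem e' 1 hj] at hij
          have := (e ⟨i - 1, by omega⟩).2
          omega
      · by_cases hj : 1 ≤ j ∧ j ≤ (Sᶜ : Finset (Fin n)).card
        · rw [seq_of_notMem e 0 hi, seq_of_mem e' 1 hj.1 hj.2] at hij
          have := (e' ⟨j - 1, by omega⟩).2
          omega
        · rw [seq_of_notMem e 0 hi, seq_of_notMem e' 1 hj] at hij
          omega
    · intro i i' h1 h2 h3
      rw [seq_of_mem e 0 h1 (by omega), seq_of_mem e 0 (by omega) h3, leN_val, leN_val]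
      have h4 := he3 ⟨i - 1, by omega⟩ ⟨i' - 1, by omega⟩ (by rw [Fin.mk_lt_mk]; omega)
      exact ⟨h4.1, fun h => h4.2 (ha _ _ h4.1 h)⟩
    · intro i i' h1 h2 h3
      rw [seq_of_mem e' 1 h1 (by omega), seq_of_mem e' 1 (by omega) h3, leN_val, leN_val]
      have h4 := he3' ⟨i - 1, by omega⟩ ⟨i' - 1, by omega⟩ (by rw [Fin.mk_lt_mk]; omega)
      exact ⟨h4.1, fun h => h4.2 (ha _ _ h4.1 h)⟩
  have hU : UU (seq e 0) (seq e' 1) S.card (Sᶜ : Finset (Fin n)).card = Finset.range n := by
    ext x
    rw [mem_UU, Finset.mem_range]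
    constructor
    · rintro (⟨i, h1, h2, rfl⟩ | ⟨i, h1, h2, rfl⟩)
      · rw [seq_of_mem e 0 h1 h2]; exact Fin.isLt _
      · rw [seq_of_mem e' 1 h1 h2]; exact Fin.isLt _
    · intro hx
      by_cases hm : (⟨x, hx⟩ : Fin n) ∈ S
      · obtain ⟨i, hi⟩ := he2 _ hm
        left
        refine ⟨i.val + 1, by omega, i.2, ?_⟩
        rw [seq_of_mem e 0 (by omega) i.2]
        have : (⟨i.val + 1 - 1, by omega⟩ : Fin S.card) = i := Fin.ext (by simp)
        rw [this, hi]
      · obtain ⟨i, hi⟩ := he2' _ (Finset.mem_compl.2 hm)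
        right
        refine ⟨i.val + 1, by omega, i.2, ?_⟩
        rw [seq_of_mem e' 1 (by omega) i.2]
        have : (⟨i.val + 1 - 1, by omega⟩ : Fin (Sᶜ : Finset (Fin n)).card) = i :=
          Fin.ext (by simp)
        rw [this, hi]
  set F : ℕ → Finset (List ℕ) := fun k =>
    ((Finset.univ : Finset (Equiv.Perm (Fin n))).filter
      (fun σ => (∀ i j : Fin n, le (σ i) (σ j) → σ i ≠ σ j → i < j) ∧
        ((Finset.univ : Finset (Fin n × Fin n)).filter
          (fun p => p.2.val = p.1.val + 1 ∧ σ p.2 < σ p.1)).card = k)).image wordOf with hF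
  have hcard : ∀ k, (F k).card = numExt le k := by
    intro k
    rw [hF]
    simp only
    rw [Finset.card_image_of_injective _ wordOf_injective]
    rfl
  have := ext_logconcave hch k d F (by
    intro k l
    rw [hU, hF]
    simp only
    rw [Finset.mem_image]
    constructor
    · rintro ⟨σ, hσ, rfl⟩
      rw [Finset.mem_filter] at hσ
      exact ⟨isExt_wordOf σ hσ.2.1, by rw [des_wordOf]; exact hσ.2.2⟩
    · rintro ⟨h1, h2⟩
      obtain ⟨σ, hσ, rfl⟩ := exists_perm h1
      refine ⟨σ, Finset.mem_filter.2 ⟨Finset.mem_univ _, hσ, ?_⟩, rfl⟩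
      rw [← des_wordOf]
      exact h2)
  rw [hcard, hcard, hcard, hcard] at this
  exact this

/-- a sequence of natural numbers with the strong form of log-concavity is unimodal -/
theorem unimodal_of_strong {a : ℕ → ℕ} {N : ℕ} (hN : ∀ m, N ≤ m → a m = 0)
    (h : ∀ k d, a k * a (k + d + 2) ≤ a (k + 1) * a (k + d + 1)) :
    ∃ m, (∀ i, i < m → a i ≤ a (i + 1)) ∧ (∀ i, m ≤ i → a (i + 1) ≤ a i) := by
  classical
  by_cases hex : ∃ m, a (m + 1) < a m
  · -- the first strict descent
    obtain ⟨hm, hmin⟩ : a (Nat.find hex + 1) < a (Nat.find hex) ∧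
        ∀ i < Nat.find hex, ¬ a (i + 1) < a i := ⟨Nat.find_spec hex, fun i hi => Nat.find_min hex hi⟩
    refine ⟨Nat.find hex, fun i hi => not_lt.1 (hmin i hi), ?_⟩
    -- after the first strict descent the sequence is weakly decreasing
    have key : ∀ i, Nat.find hex ≤ i → a (i + 1) ≤ a i := by
      intro i hi
      obtain ⟨d, rfl⟩ := Nat.exists_eq_add_of_le hi
      rcases Nat.eq_zero_or_pos d with rfl | hd
      · exact hm.le
      · obtain ⟨e, rfl⟩ := Nat.exists_eq_add_of_lt hd
        rw [Nat.zero_add] at *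
        by_contra hcon
        rw [not_le] at hcon
        have h1 := h (Nat.find hex) e
        have h2 : a (Nat.find hex) * a (Nat.find hex + e + 2) ≤
            a (Nat.find hex + 1) * a (Nat.find hex + e + 1) := h1
        have h3 : a (Nat.find hex + e + 1) < a (Nat.find hex + e + 2) := by
          have e1 : Nat.find hex + (e + 1) = Nat.find hex + e + 1 := by ring
          have e2 : Nat.find hex + (e + 1) + 1 = Nat.find hex + e + 2 := by ring
          rw [e1] at hcon
          exact hcon
        have h4 : a (Nat.find hex + 1) * a (Nat.find hex + e + 1) <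
            a (Nat.find hex) * a (Nat.find hex + e + 2) :=
          lt_of_le_of_lt (Nat.mul_le_mul_right _ hm.le)
            (Nat.mul_lt_mul_of_pos_left h3 (by omega))
        omega
    exact key
  · push Not at hex
    -- the sequence is weakly increasing and finally zero, so it is zero
    have hmono : ∀ i j, i ≤ j → a i ≤ a j := by
      intro i j hij
      induction j, hij using Nat.le_induction with
      | base => exact le_rfl
      | succ j _ ih => exact ih.trans (hex j)
    refine ⟨0, fun i hi => absurd hi (Nat.not_lt_zero _), fun i _ => ?_⟩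
    have := hmono (i + 1) (i + 1 + N) (by omega)
    rw [hN (i + 1 + N) (by omega)] at this
    omega

end Pool.Agent.Helper16.PEul
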