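import Pool.Agent.Helper16.PEul.Ext

/-!
From linear extensions as permutations of `Fin n` to words.
-/

namespace Pool.Agent.Helper16.PEul

/-- the list `[F (m - 1), ..., F 0]` -/
def LL (F : ℕ → ℕ) : ℕ → List ℕ
  | 0 => []
  | m + 1 => F m :: LL F m

theorem reverse_ofFn (F : ℕ → ℕ) (m : ℕ) : (List.ofFn (fun i : Fin m => F i)).reverse = LL F m := by
  induction m with
  | zero => rfl
  | succ m ih =>
    rw [List.ofFn_succ_last, List.reverse_append, List.reverse_singleton, List.singleton_append,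
      LL]
    congr 1

theorem des_LL (F : ℕ → ℕ) (m : ℕ) :
    des (LL F m) = ((Finset.range (m - 1)).filter (fun i => F (i + 1) < F i)).card := by
  induction m with
  | zero => rfl
  | succ m ih =>
    cases m with
    | zero => rfl
    | succ m =>
      have e1 : LL F (m + 1 + 1) = F (m + 1) :: F m :: LL F m := rfl
      have e2 : LL F (m + 1) = F m :: LL F m := rfl
      rw [e1, des, ← e2, ih]
      have e3 : m + 1 + 1 - 1 = m + 1 := rfl
      have e4 : m + 1 - 1 = m := rfl
      rw [e3, e4, Finset.range_add_one, Finset.filter_insert]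
      by_cases h : F (m + 1) < F m
      · rw [if_pos h, if_pos h, Finset.card_insert_of_notMem, add_comm]
        intro h'
        have := Finset.mem_range.1 (Finset.mem_filter.1 h').1
        omega
      · rw [if_neg h, if_neg h, zero_add]

/-- the natural number extension of a function on `Fin n` -/
def extend {n : ℕ} (f : Fin n → ℕ) (i : ℕ) : ℕ := if h : i < n then f ⟨i, h⟩ else 0

theorem extend_val {n : ℕ} (f : Fin n → ℕ) (i : Fin n) : extend f i = f i := by
  unfold extend
  rw [dif_pos i.2]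

theorem des_reverse_ofFn {n : ℕ} (f : Fin n → ℕ) :
    des (List.ofFn f).reverse = ((Finset.univ : Finset (Fin n × Fin n)).filter
      (fun p => p.2.val = p.1.val + 1 ∧ f p.2 < f p.1)).card := by
  have e1 : f = fun i : Fin n => extend f i := by
    funext i
    exact (extend_val f i).symm
  have e2 : (List.ofFn f).reverse = LL (extend f) n := by
    rw [← reverse_ofFn, ← e1]
  rw [e2, des_LL]
  symm
  refine Finset.card_bij (fun p _ => p.1.val) ?_ ?_ ?_
  · rintro ⟨i, j⟩ h
    rw [Finset.mem_filter] at h ⊢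
    simp only at h
    obtain ⟨_, h1, h2⟩ := h
    have := j.2
    refine ⟨Finset.mem_range.2 (by simp only; omega), ?_⟩
    simp only
    rw [← h1, extend_val, extend_val]
    exact h2
  · rintro ⟨i, j⟩ h ⟨i', j'⟩ h' he
    rw [Finset.mem_filter] at h h'
    simp only at h h' he
    have e3 : i = i' := Fin.ext he
    have e4 : j = j' := Fin.ext (by omega)
    rw [e3, e4]
  · intro i h
    rw [Finset.mem_filter, Finset.mem_range] at h
    obtain ⟨h1, h2⟩ := h
    have hi : i < n := by omega
    have hi' : i + 1 < n := by omega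
    refine ⟨(⟨i, hi⟩, ⟨i + 1, hi'⟩), ?_, rfl⟩
    rw [Finset.mem_filter]
    refine ⟨Finset.mem_univ _, rfl, ?_⟩
    have := extend_val f ⟨i, hi⟩
    have h3 := extend_val f ⟨i + 1, hi'⟩
    simp only at this h3
    rw [← this, ← h3]
    exact h2

/-- a relation on `Fin n` as a relation on the natural numbers -/
def leN {n : ℕ} (le : Fin n → Fin n → Prop) (x y : ℕ) : Prop :=
  ∃ (hx : x < n) (hy : y < n), le ⟨x, hx⟩ ⟨y, hy⟩

theorem leN_val {n : ℕ} (le : Fin n → Fin n → Prop) (x y : Fin n) :
    leN le x.val y.val ↔ le x y :=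
  ⟨fun ⟨_, _, h⟩ => h, fun h => ⟨x.2, y.2, h⟩⟩

/-- the elements of a finite set, without inherited order -/
structure Elt {n : ℕ} (S : Finset (Fin n)) where
  /-- the element -/
  x : Fin n
  /-- membership -/
  mem : x ∈ S

theorem Elt.ext' {n : ℕ} {S : Finset (Fin n)} {u v : Elt S} (h : u.x = v.x) : u = v := by
  cases u; cases v
  simp only at h
  subst h
  rfl

/-- `Elt S` and the subtype -/
def eltEquiv {n : ℕ} (S : Finset (Fin n)) : Elt S ≃ {x // x ∈ S} where
  toFun u := ⟨u.x, u.mem⟩
  invFun u := ⟨u.1, u.2⟩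
  left_inv _ := rfl
  right_inv _ := rfl

/-- a chain can be enumerated increasingly -/
theorem exists_enum {n : ℕ} (le : Fin n → Fin n → Prop) (hr : ∀ a, le a a)
    (ha : ∀ a b, le a b → le b a → a = b) (ht : ∀ a b c, le a b → le b c → le a c)
    (S : Finset (Fin n)) (hS : ∀ x ∈ S, ∀ y ∈ S, le x y ∨ le y x) :
    ∃ e : Fin S.card → Fin n, (∀ i, e i ∈ S) ∧ (∀ x ∈ S, ∃ i, e i = x) ∧
      (∀ i j, i < j → le (e i) (e j) ∧ e i ≠ e j) := by
  classical
  let inst : LinearOrder (Elt S) :=
    { le := fun x y => le x.x y.x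
      le_refl := fun x => hr x.x
      le_trans := fun x y z h1 h2 => ht _ _ _ h1 h2
      le_antisymm := fun x y h1 h2 => Elt.ext' (ha _ _ h1 h2)
      le_total := fun x y => hS x.x x.mem y.x y.mem
      toDecidableLE := Classical.decRel _ }
  let ft : Fintype (Elt S) := Fintype.ofEquiv _ (eltEquiv S).symm
  have hc : Fintype.card (Elt S) = S.card := by
    rw [Fintype.card_congr (eltEquiv S)]
    exact Fintype.card_coe S
  let e := monoEquivOfFin (Elt S) hc
  refine ⟨fun i => (e i).x, fun i => (e i).mem, ?_, ?_⟩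
  · intro x hx
    refine ⟨e.symm ⟨x, hx⟩, ?_⟩
    simp
  · intro i j hij
    have h1 : e i < e j := e.lt_iff_lt.2 hij
    have h2 : e i ≤ e j := h1.le
    refine ⟨h2, ?_⟩
    intro h3
    exact h1.ne (Elt.ext' h3)

/-- extension of an enumeration to an injective sequence -/
def seq {n p : ℕ} (e : Fin p → Fin n) (c : ℕ) (i : ℕ) : ℕ :=
  if h : 1 ≤ i ∧ i ≤ p then (e ⟨i - 1, by omega⟩).val else n + 2 * i + c

theorem seq_of_mem {n p : ℕ} (e : Fin p → Fin n) (c : ℕ) {i : ℕ} (h1 : 1 ≤ i) (h2 : i ≤ p) :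
    seq e c i = (e ⟨i - 1, by omega⟩).val := by
  unfold seq
  rw [dif_pos ⟨h1, h2⟩]

theorem seq_of_notMem {n p : ℕ} (e : Fin p → Fin n) (c : ℕ) {i : ℕ} (h : ¬ (1 ≤ i ∧ i ≤ p)) :
    seq e c i = n + 2 * i + c := by
  unfold seq
  rw [dif_neg h]

theorem seq_injective {n p : ℕ} (e : Fin p → Fin n) (he : Function.Injective e) (c : ℕ) :
    Function.Injective (seq e c) := by
  intro i j hij
  by_cases hi : 1 ≤ i ∧ i ≤ p
  · by_cases hj : 1 ≤ j ∧ j ≤ p
    · rw [seq_of_mem e c hi.1 hi.2, seq_of_mem e c hj.1 hj.2] at hij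
      have := he (Fin.ext hij)
      have := congrArg Fin.val this
      simp only at this
      omega
    · rw [seq_of_mem e c hi.1 hi.2, seq_of_notMem e c hj] at hij
      have := (e ⟨i - 1, by omega⟩).2
      omega
  · by_cases hj : 1 ≤ j ∧ j ≤ p
    · rw [seq_of_notMem e c hi, seq_of_mem e c hj.1 hj.2] at hij
      have := (e ⟨j - 1, by omega⟩).2
      omega
    · rw [seq_of_notMem e c hi, seq_of_notMem e c hj] at hij
      omega

end Pool.Agent.Helper16.PEul
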