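import Pool.Agent.Helper16.PEul.Core

/-!
The generating function of the encoding pairs satisfies the recursion of words of two labelled
chains under removal of the last letter.
-/

namespace Pool.Agent.Helper16.PEul

variable {la lb : ℕ → ℕ}

/-- the last statement, when the label of `b q` is the smaller one -/
theorem E_top0 {X Y : Finset ℕ} {p q : ℕ} (hc : ¬ la p < lb q)
    (hX : X ⊆ Finset.range (wk la p + st lb q + 1))
    (hY : Y ⊆ Finset.range (wk lb q + st la p + 1))
    (hcard : X.card + st la p = Y.card + st lb q) :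
    E la lb X Y p q ↔ wk la p + st lb q ∉ X := by
  unfold E cc
  rw [if_neg hc]
  have e1 : cnt Y (wk lb q + st la p + (1 - 0)) = Y.card := cnt_eq_card hY (by omega)
  have e2 : cnt X (wk la p + st lb q + 1) = X.card := cnt_eq_card hX le_rfl
  have e3 := cnt_succ X (wk la p + st lb q)
  rw [e1, add_zero, add_zero]
  rw [e2] at e3
  by_cases h : wk la p + st lb q ∈ X
  · rw [if_pos h] at e3
    constructor
    · intro h'; omega
    · intro h'; exact absurd h h'
  · rw [if_neg h] at e3
    constructor
    · intro _; exact h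
    · intro _; omega

/-- the last statement, when the label of `a p` is the smaller one -/
theorem E_top1 {X Y : Finset ℕ} {p q : ℕ} (hc : la p < lb q)
    (hX : X ⊆ Finset.range (wk la p + st lb q + 1))
    (hY : Y ⊆ Finset.range (wk lb q + st la p + 1))
    (hcard : X.card + st la p = Y.card + st lb q) :
    E la lb X Y p q ↔ wk lb q + st la p ∈ Y := by
  unfold E cc
  rw [if_pos hc]
  have e1 : cnt X (wk la p + st lb q + 1) = X.card := cnt_eq_card hX (by omega)
  have e2 : cnt Y (wk lb q + st la p + 1) = Y.card := cnt_eq_card hY le_rfl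
  have e3 := cnt_succ Y (wk lb q + st la p)
  have e4 : wk lb q + st la p + (1 - 1) = wk lb q + st la p := rfl
  rw [e1, e4]
  rw [e2] at e3
  by_cases h : wk lb q + st la p ∈ Y
  · rw [if_pos h] at e3
    constructor
    · intro _; exact h
    · intro _; omega
  · rw [if_neg h] at e3
    constructor
    · intro h'; omega
    · intro h'; exact absurd h' h

theorem E_insert_X {X Y : Finset ℕ} {p q t i j : ℕ} (ht : wk la p + st lb q + 1 ≤ t)
    (hi : i ≤ p) (hj : j ≤ q) : E la lb (insert t X) Y i j ↔ E la lb X Y i j := by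
  unfold E
  have h1 := wk_mono la hi
  have h2 := st_mono lb hj
  have h3 := cc_le la lb i j
  rw [cnt_insert_of_le (by omega)]

theorem E_insert_Y {X Y : Finset ℕ} {p q t i j : ℕ} (ht : wk lb q + st la p + 1 ≤ t)
    (hi : i ≤ p) (hj : j ≤ q) : E la lb X (insert t Y) i j ↔ E la lb X Y i j := by
  unfold E
  have h1 := wk_mono lb hj
  have h2 := st_mono la hi
  rw [cnt_insert_of_le (by omega)]

theorem E_insert_topY {X Y : Finset ℕ} {p q i j : ℕ} (hc : la p < lb q)
    (hi : i ≤ p) (hj : j ≤ q) :
    E la lb X (insert (wk lb q + st la p) Y) i j ↔ E la lb X Y i j := by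
  unfold E
  have h1 := wk_mono lb hj
  have h2 := st_mono la hi
  rw [cnt_insert_of_le]
  unfold cc
  by_cases h : la i < lb j
  · rw [if_pos h]; omega
  · rw [if_neg h]
    by_contra hcon
    have w1 : wk lb j = wk lb q := by omega
    have w2 : st la i = st la p := by omega
    have k1 := le_of_wk_eq lb hj w1
    have k2 := le_of_st_eq la hi w2
    omega

theorem E_insert_topX {X Y : Finset ℕ} {p q i j : ℕ} (hc : lb q < la p)
    (hi : i ≤ p) (hj : j ≤ q) :
    E la lb (insert (wk la p + st lb q) X) Y i j ↔ E la lb X Y i j := by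
  unfold E
  have h1 := wk_mono la hi
  have h2 := st_mono lb hj
  rw [cnt_insert_of_le (t := wk la p + st lb q)]
  unfold cc
  by_cases h : la i < lb j
  · rw [if_pos h]
    by_contra hcon
    have w1 : wk la i = wk la p := by omega
    have w2 : st lb j = st lb q := by omega
    have k1 := le_of_wk_eq la hi w1
    have k2 := le_of_st_eq lb hj w2
    omega
  · rw [if_neg h]; omega

/-- encoding pairs of words with last indices `p`, `q`, subject to constraints: `CA i j` says
that `b j` may stand before `a i`, `CB i j` says that `a i` may stand before `b j`. -/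
structure IsXY (la lb : ℕ → ℕ) (CA CB : ℕ → ℕ → Prop) (p q : ℕ) (z : Finset ℕ × Finset ℕ) :
    Prop where
  subX : z.1 ⊆ Finset.range (wk la p + st lb q + 1)
  subY : z.2 ⊆ Finset.range (wk lb q + st la p + 1)
  card : z.1.card + st la p = z.2.card + st lb q
  allA : ∀ i ≤ p, ∀ j ≤ q, E la lb z.1 z.2 i j → CA i j
  allB : ∀ i ≤ p, ∀ j ≤ q, ¬ E la lb z.1 z.2 i j → CB i j

open Classical in
/-- the finite set of all encoding pairs -/
noncomputable def XY (la lb : ℕ → ℕ) (CA CB : ℕ → ℕ → Prop) (p q : ℕ) :
    Finset (Finset ℕ × Finset ℕ) :=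
  ((Finset.range (wk la p + st lb q + 1)).powerset ×ˢ
    (Finset.range (wk lb q + st la p + 1)).powerset).filter (fun z => IsXY la lb CA CB p q z)

theorem mem_XY {CA CB : ℕ → ℕ → Prop} {p q : ℕ} {z : Finset ℕ × Finset ℕ} :
    z ∈ XY la lb CA CB p q ↔ IsXY la lb CA CB p q z := by
  classical
  unfold XY
  rw [Finset.mem_filter, Finset.mem_product, Finset.mem_powerset, Finset.mem_powerset]
  exact ⟨fun h => h.2, fun h => ⟨⟨h.subX, h.subY⟩, h⟩⟩

open Classical in
/-- pairs whose word ends with an `a` -/
noncomputable def XYa (la lb : ℕ → ℕ) (CA CB : ℕ → ℕ → Prop) (p q : ℕ) :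
    Finset (Finset ℕ × Finset ℕ) :=
  (XY la lb CA CB p q).filter (fun z => E la lb z.1 z.2 p q)

open Classical in
/-- pairs whose word ends with a `b` -/
noncomputable def XYb (la lb : ℕ → ℕ) (CA CB : ℕ → ℕ → Prop) (p q : ℕ) :
    Finset (Finset ℕ × Finset ℕ) :=
  (XY la lb CA CB p q).filter (fun z => ¬ E la lb z.1 z.2 p q)

open Classical in
theorem mem_XYa {CA CB : ℕ → ℕ → Prop} {p q : ℕ} {z : Finset ℕ × Finset ℕ} :
    z ∈ XYa la lb CA CB p q ↔ IsXY la lb CA CB p q z ∧ E la lb z.1 z.2 p q := by
  unfold XYa
  rw [Finset.mem_filter, mem_XY]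

open Classical in
theorem mem_XYb {CA CB : ℕ → ℕ → Prop} {p q : ℕ} {z : Finset ℕ × Finset ℕ} :
    z ∈ XYb la lb CA CB p q ↔ IsXY la lb CA CB p q z ∧ ¬ E la lb z.1 z.2 p q := by
  unfold XYb
  rw [Finset.mem_filter, mem_XY]

variable {R : Type*} [CommSemiring R]

/-- generating function of a set of pairs -/
noncomputable def gf (x : R) (s : ℕ) (S : Finset (Finset ℕ × Finset ℕ)) : R :=
  ∑ z ∈ S, x ^ (z.1.card + s)

theorem gf_XY (x : R) (CA CB : ℕ → ℕ → Prop) (p q s : ℕ) :
    gf x s (XY la lb CA CB p q) =
      gf x s (XYa la lb CA CB p q) + gf x s (XYb la lb CA CB p q) := by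
  classical
  unfold gf XYa XYb
  exact (Finset.sum_filter_add_sum_filter_not _ _ _).symm

theorem XYa_empty_of_not {CA CB : ℕ → ℕ → Prop} {p q : ℕ} (h : ¬ ∀ j ≤ q, CA p j) :
    XYa la lb CA CB p q = ∅ := by
  rw [Finset.eq_empty_iff_forall_notMem]
  intro z hz
  rw [mem_XYa] at hz
  exact h fun j hj => hz.1.allA p le_rfl j hj (E_mono_right' _ _ _ hj hz.2)

/-- extension of the constraints by one row -/
theorem isXY_row {CA CB : ℕ → ℕ → Prop} {p q : ℕ} {z z' : Finset ℕ × Finset ℕ}
    (hrow : ∀ j ≤ q, CA (p + 1) j)
    (hX : z.1 ⊆ Finset.range (wk la (p + 1) + st lb q + 1))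
    (hY : z.2 ⊆ Finset.range (wk lb q + st la (p + 1) + 1))
    (hcard : z.1.card + st la (p + 1) = z.2.card + st lb q)
    (hz' : IsXY la lb CA CB p q z')
    (hE : ∀ i ≤ p, ∀ j ≤ q, (E la lb z.1 z.2 i j ↔ E la lb z'.1 z'.2 i j))
    (hlast : E la lb z.1 z.2 (p + 1) q) :
    IsXY la lb CA CB (p + 1) q z := by
  refine ⟨hX, hY, hcard, ?_, ?_⟩
  · intro i hi j hj h
    rcases Nat.lt_or_ge p i with h1 | h1
    · have : i = p + 1 := by omega
      subst this
      exact hrow j hj
    · exact hz'.allA i h1 j hj ((hE i h1 j hj).1 h)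
  · intro i hi j hj h
    rcases Nat.lt_or_ge p i with h1 | h1
    · have : i = p + 1 := by omega
      subst this
      exact absurd (E_mono_right' _ _ _ hj hlast) h
    · exact hz'.allB i h1 j hj (fun h' => h ((hE i h1 j hj).2 h'))

/-- restriction of the constraints -/
theorem isXY_restrict {CA CB : ℕ → ℕ → Prop} {p q : ℕ} {z z' : Finset ℕ × Finset ℕ}
    (hX : z'.1 ⊆ Finset.range (wk la p + st lb q + 1))
    (hY : z'.2 ⊆ Finset.range (wk lb q + st la p + 1))
    (hcard : z'.1.card + st la p = z'.2.card + st lb q)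
    (hz : IsXY la lb CA CB (p + 1) q z)
    (hE : ∀ i ≤ p, ∀ j ≤ q, (E la lb z.1 z.2 i j ↔ E la lb z'.1 z'.2 i j)) :
    IsXY la lb CA CB p q z' := by
  refine ⟨hX, hY, hcard, ?_, ?_⟩
  · intro i hi j hj h
    exact hz.allA i (by omega) j hj ((hE i hi j hj).2 h)
  · intro i hi j hj h
    exact hz.allB i (by omega) j hj (fun h' => h ((hE i hi j hj).1 h'))

theorem subset_range_of_notMem {X : Finset ℕ} {m : ℕ} (h : X ⊆ Finset.range (m + 1))
    (hm : m ∉ X) : X ⊆ Finset.range m := by
  intro x hx
  have h1 := Finset.mem_range.1 (h hx)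
  rw [Finset.mem_range]
  rcases Nat.lt_succ_iff_lt_or_eq.1 h1 with h2 | h2
  · exact h2
  · subst h2; exact absurd hx hm

/-- weak step, `b q` has the smaller label -/
theorem rec_W0 {CA CB : ℕ → ℕ → Prop} {p q : ℕ} (hrow : ∀ j ≤ q, CA (p + 1) j)
    (hw : ¬ la (p + 1) < la p) (hc : ¬ la (p + 1) < lb q) :
    XYa la lb CA CB (p + 1) q = XY la lb CA CB p q := by
  have hwk : wk la (p + 1) = wk la p + 1 := by rw [wk, if_neg hw]
  have hst : st la (p + 1) = st la p := by rw [st, if_neg hw, add_zero]
  ext z
  rw [mem_XYa, mem_XY]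
  constructor
  · rintro ⟨h1, h2⟩
    have h3 := (E_top0 hc h1.subX h1.subY h1.card).1 h2
    have hX : z.1 ⊆ Finset.range (wk la (p + 1) + st lb q) := subset_range_of_notMem h1.subX h3
    refine isXY_restrict ?_ ?_ ?_ h1 (fun i _ j _ => Iff.rfl)
    · rw [hwk] at hX
      have e : wk la p + 1 + st lb q = wk la p + st lb q + 1 := by omega
      rwa [e] at hX
    · rw [← hst]; exact h1.subY
    · rw [← hst]; exact h1.card
  · intro h1
    have hX : z.1 ⊆ Finset.range (wk la (p + 1) + st lb q + 1) := by
      refine h1.subX.trans (Finset.range_mono ?_)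
      omega
    have hY : z.2 ⊆ Finset.range (wk lb q + st la (p + 1) + 1) := by
      rw [hst]; exact h1.subY
    have hcd : z.1.card + st la (p + 1) = z.2.card + st lb q := by rw [hst]; exact h1.card
    have hlast : E la lb z.1 z.2 (p + 1) q := by
      rw [E_top0 hc hX hY hcd]
      intro hm
      have := Finset.mem_range.1 (h1.subX hm)
      omega
    exact ⟨isXY_row hrow hX hY hcd h1 (fun i _ j _ => Iff.rfl) hlast, hlast⟩

/-- strict step, `a (p + 1)` has the smaller label -/
theorem rec_S1 (x : R) {CA CB : ℕ → ℕ → Prop} {p q : ℕ} (hrow : ∀ j ≤ q, CA (p + 1) j)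
    (hs : la (p + 1) < la p) (hc : la (p + 1) < lb q) :
    gf x (st la (p + 1)) (XYa la lb CA CB (p + 1) q) =
      x * gf x (st la p) (XY la lb CA CB p q) := by
  have hwk : wk la (p + 1) = wk la p := by rw [wk, if_pos hs, add_zero]
  have hst : st la (p + 1) = st la p + 1 := by rw [st, if_pos hs]
  unfold gf
  rw [Finset.mul_sum]
  refine Finset.sum_nbij' (fun z => (z.1, z.2.erase (wk lb q + st la (p + 1))))
    (fun z => (z.1, insert (wk lb q + st la (p + 1)) z.2)) ?_ ?_ ?_ ?_ ?_
  · intro z hz
    rw [mem_XYa] at hz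
    obtain ⟨h1, h2⟩ := hz
    have h3 := (E_top1 hc h1.subX h1.subY h1.card).1 h2
    rw [mem_XY]
    refine isXY_restrict ?_ ?_ ?_ h1 ?_
    · have := h1.subX
      rwa [hwk] at this
    · have e : wk lb q + st la p + 1 = wk lb q + st la (p + 1) := by omega
      rw [e]
      refine subset_range_of_notMem ?_ (Finset.notMem_erase _ _)
      exact (Finset.erase_subset _ _).trans h1.subY
    · have h4 := h1.card
      have h5 := Finset.card_erase_add_one h3
      simp only
      omega
    · intro i hi j hj
      have h6 : z.2 = insert (wk lb q + st la (p + 1)) (z.2.erase (wk lb q + st la (p + 1))) :=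
        (Finset.insert_erase h3).symm
      conv_lhs => rw [h6]
      exact E_insert_Y (p := p) (q := q) (by omega) hi hj
  · intro z hz
    rw [mem_XY] at hz
    have hnot : wk lb q + st la (p + 1) ∉ z.2 := by
      intro hm
      have := Finset.mem_range.1 (hz.subY hm)
      omega
    have hX : z.1 ⊆ Finset.range (wk la (p + 1) + st lb q + 1) := by
      rw [hwk]; exact hz.subX
    have hY : insert (wk lb q + st la (p + 1)) z.2 ⊆
        Finset.range (wk lb q + st la (p + 1) + 1) := by
      rw [Finset.insert_subset_iff]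
      refine ⟨Finset.mem_range.2 (by omega), hz.subY.trans (Finset.range_mono (by omega))⟩
    have hcd : z.1.card + st la (p + 1) = (insert (wk lb q + st la (p + 1)) z.2).card +
        st lb q := by
      rw [Finset.card_insert_of_notMem hnot]
      have := hz.card
      omega
    have hlast : E la lb z.1 (insert (wk lb q + st la (p + 1)) z.2) (p + 1) q := by
      rw [E_top1 hc hX hY hcd]
      exact Finset.mem_insert_self _ _
    rw [mem_XYa]
    exact ⟨isXY_row hrow hX hY hcd hz
      (fun i hi j hj => E_insert_Y (p := p) (q := q) (by omega) hi hj) hlast, hlast⟩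
  · intro z hz
    rw [mem_XYa] at hz
    have h3 := (E_top1 hc hz.1.subX hz.1.subY hz.1.card).1 hz.2
    simp only [Finset.insert_erase h3]
  · intro z hz
    rw [mem_XY] at hz
    have hnot : wk lb q + st la (p + 1) ∉ z.2 := by
      intro hm
      have := Finset.mem_range.1 (hz.subY hm)
      omega
    simp only [Finset.erase_insert hnot]
  · intro z hz
    simp only
    rw [hst, ← pow_succ', add_assoc]

/-- weak step, `a (p + 1)` has the smaller label -/
theorem rec_W1 (x : R) {CA CB : ℕ → ℕ → Prop} {p q : ℕ} (hrow : ∀ j ≤ q, CA (p + 1) j)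
    (hw : ¬ la (p + 1) < la p) (hc : la (p + 1) < lb q) :
    gf x (st la (p + 1)) (XYa la lb CA CB (p + 1) q) =
      gf x (st la p) (XYa la lb CA CB p q) + x * gf x (st la p) (XYb la lb CA CB p q) := by
  classical
  have hwk : wk la (p + 1) = wk la p + 1 := by rw [wk, if_neg hw]
  have hst : st la (p + 1) = st la p := by rw [st, if_neg hw, add_zero]
  have hc' : la p < lb q := lt_of_le_of_lt (not_lt.1 hw) hc
  set m := wk la p + st lb q + 1 with hm
  set t := wk lb q + st la p with ht
  have part1 : (XYa la lb CA CB (p + 1) q).filter (fun z => ¬ m ∈ z.1) =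
      XYa la lb CA CB p q := by
    ext z
    rw [Finset.mem_filter, mem_XYa, mem_XYa]
    constructor
    · rintro ⟨⟨h1, h2⟩, h3⟩
      have h4 := (E_top1 hc h1.subX h1.subY h1.card).1 h2
      have hX : z.1 ⊆ Finset.range (wk la p + st lb q + 1) := by
        refine subset_range_of_notMem ?_ h3
        have := h1.subX
        rw [hwk] at this
        have e : wk la p + 1 + st lb q + 1 = m + 1 := by omega
        rwa [e] at this
      have hY : z.2 ⊆ Finset.range (wk lb q + st la p + 1) := by
        have := h1.subY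
        rwa [hst] at this
      have hcd : z.1.card + st la p = z.2.card + st lb q := by
        have := h1.card
        rwa [hst] at this
      refine ⟨isXY_restrict hX hY hcd h1 (fun i _ j _ => Iff.rfl), ?_⟩
      rw [E_top1 hc' hX hY hcd]
      rwa [hst] at h4
    · rintro ⟨h1, h2⟩
      have h4 := (E_top1 hc' h1.subX h1.subY h1.card).1 h2
      have hX : z.1 ⊆ Finset.range (wk la (p + 1) + st lb q + 1) :=
        h1.subX.trans (Finset.range_mono (by omega))
      have hY : z.2 ⊆ Finset.range (wk lb q + st la (p + 1) + 1) := by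
        rw [hst]; exact h1.subY
      have hcd : z.1.card + st la (p + 1) = z.2.card + st lb q := by rw [hst]; exact h1.card
      have hlast : E la lb z.1 z.2 (p + 1) q := by
        rw [E_top1 hc hX hY hcd, hst]
        exact h4
      refine ⟨⟨isXY_row hrow hX hY hcd h1 (fun i _ j _ => Iff.rfl) hlast, hlast⟩, ?_⟩
      intro h5
      have := Finset.mem_range.1 (h1.subX h5)
      omega
  have part2 : ∑ z ∈ (XYa la lb CA CB (p + 1) q).filter (fun z => m ∈ z.1),
      x ^ (z.1.card + st la (p + 1)) =
      ∑ z ∈ XYb la lb CA CB p q, x * x ^ (z.1.card + st la p) := by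
    refine Finset.sum_nbij' (fun z => (z.1.erase m, z.2.erase t))
      (fun z => (insert m z.1, insert t z.2)) ?_ ?_ ?_ ?_ ?_
    · intro z hz
      rw [Finset.mem_filter, mem_XYa] at hz
      obtain ⟨⟨h1, h2⟩, h3⟩ := hz
      have h4 := (E_top1 hc h1.subX h1.subY h1.card).1 h2
      rw [hst, ← ht] at h4
      have hX : z.1.erase m ⊆ Finset.range (wk la p + st lb q + 1) := by
        refine subset_range_of_notMem ?_ (Finset.notMem_erase _ _)
        refine (Finset.erase_subset _ _).trans (h1.subX.trans (Finset.range_mono ?_))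
        omega
      have hY : z.2.erase t ⊆ Finset.range (wk lb q + st la p + 1) := by
        refine (Finset.erase_subset _ _).trans ?_
        have := h1.subY
        rwa [hst] at this
      have hcd : (z.1.erase m).card + st la p = (z.2.erase t).card + st lb q := by
        have h5 := h1.card
        have h6 := Finset.card_erase_add_one h3
        have h7 := Finset.card_erase_add_one h4
        omega
      have hE : ∀ i ≤ p, ∀ j ≤ q, (E la lb z.1 z.2 i j ↔
          E la lb (z.1.erase m) (z.2.erase t) i j) := by
        intro i hi j hj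
        have k1 : z.1 = insert m (z.1.erase m) := (Finset.insert_erase h3).symm
        have k2 : z.2 = insert t (z.2.erase t) := (Finset.insert_erase h4).symm
        conv_lhs => rw [k1, k2]
        rw [E_insert_X (p := p) (q := q) (by omega) hi hj, ht]
        exact E_insert_topY hc' hi hj
      rw [mem_XYb]
      refine ⟨isXY_restrict hX hY hcd h1 hE, ?_⟩
      simp only
      rw [E_top1 hc' hX hY hcd]
      exact Finset.notMem_erase _ _
    · intro z hz
      rw [mem_XYb] at hz
      obtain ⟨h1, h2⟩ := hz
      have h4 : t ∉ z.2 := fun h => h2 ((E_top1 hc' h1.subX h1.subY h1.card).2 h)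
      have h3 : m ∉ z.1 := by
        intro h5
        have := Finset.mem_range.1 (h1.subX h5)
        omega
      have hX : insert m z.1 ⊆ Finset.range (wk la (p + 1) + st lb q + 1) := by
        rw [Finset.insert_subset_iff]
        exact ⟨Finset.mem_range.2 (by omega), h1.subX.trans (Finset.range_mono (by omega))⟩
      have hY : insert t z.2 ⊆ Finset.range (wk lb q + st la (p + 1) + 1) := by
        rw [Finset.insert_subset_iff]
        exact ⟨Finset.mem_range.2 (by omega), h1.subY.trans (Finset.range_mono (by omega))⟩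
      have hcd : (insert m z.1).card + st la (p + 1) = (insert t z.2).card + st lb q := by
        rw [Finset.card_insert_of_notMem h3, Finset.card_insert_of_notMem h4]
        have := h1.card
        omega
      have hlast : E la lb (insert m z.1) (insert t z.2) (p + 1) q := by
        rw [E_top1 hc hX hY hcd, hst]
        exact Finset.mem_insert_self _ _
      have hE : ∀ i ≤ p, ∀ j ≤ q, (E la lb (insert m z.1) (insert t z.2) i j ↔
          E la lb z.1 z.2 i j) := by
        intro i hi j hj
        rw [E_insert_X (p := p) (q := q) (by omega) hi hj, ht]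
        exact E_insert_topY hc' hi hj
      rw [Finset.mem_filter, mem_XYa]
      exact ⟨⟨isXY_row hrow hX hY hcd h1 hE hlast, hlast⟩, Finset.mem_insert_self _ _⟩
    · intro z hz
      rw [Finset.mem_filter, mem_XYa] at hz
      obtain ⟨⟨h1, h2⟩, h3⟩ := hz
      have h4 := (E_top1 hc h1.subX h1.subY h1.card).1 h2
      rw [hst, ← ht] at h4
      simp only [Finset.insert_erase h3, Finset.insert_erase h4]
    · intro z hz
      rw [mem_XYb] at hz
      obtain ⟨h1, h2⟩ := hz
      have h4 : t ∉ z.2 := fun h => h2 ((E_top1 hc' h1.subX h1.subY h1.card).2 h)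
      have h3 : m ∉ z.1 := by
        intro h5
        have := Finset.mem_range.1 (h1.subX h5)
        omega
      simp only [Finset.erase_insert h3, Finset.erase_insert h4]
    · intro z hz
      rw [Finset.mem_filter, mem_XYa] at hz
      have h6 := Finset.card_erase_add_one hz.2
      simp only
      rw [← pow_succ', hst]
      congr 1
      omega
  unfold gf
  rw [← Finset.sum_filter_add_sum_filter_not (XYa la lb CA CB (p + 1) q) (fun z => m ∈ z.1),
    part1, part2, Finset.mul_sum, hst, add_comm]

/-- strict step, `b q` has the smaller label -/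
theorem rec_S0 (x : R) {CA CB : ℕ → ℕ → Prop} {p q : ℕ} (hne : la (p + 1) ≠ lb q)
    (hrow : ∀ j ≤ q, CA (p + 1) j)
    (hs : la (p + 1) < la p) (hc : ¬ la (p + 1) < lb q) :
    gf x (st la (p + 1)) (XYa la lb CA CB (p + 1) q) =
      x * gf x (st la p) (XYa la lb CA CB p q) + gf x (st la p) (XYb la lb CA CB p q) := by
  classical
  have hwk : wk la (p + 1) = wk la p := by rw [wk, if_pos hs, add_zero]
  have hst : st la (p + 1) = st la p + 1 := by rw [st, if_pos hs]
  have hb : lb q < la p := by omega
  have hc' : ¬ la p < lb q := by omega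
  set m := wk lb q + st la p + 1 with hm
  set t := wk la p + st lb q with ht
  have part1 : ∑ z ∈ (XYa la lb CA CB (p + 1) q).filter (fun z => m ∈ z.2),
      x ^ (z.1.card + st la (p + 1)) =
      ∑ z ∈ XYa la lb CA CB p q, x * x ^ (z.1.card + st la p) := by
    refine Finset.sum_nbij' (fun z => (z.1, z.2.erase m)) (fun z => (z.1, insert m z.2))
      ?_ ?_ ?_ ?_ ?_
    · intro z hz
      rw [Finset.mem_filter, mem_XYa] at hz
      obtain ⟨⟨h1, h2⟩, h3⟩ := hz
      have h4 := (E_top0 hc h1.subX h1.subY h1.card).1 h2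
      rw [hwk, ← ht] at h4
      have hX : z.1 ⊆ Finset.range (wk la p + st lb q + 1) := by
        have := h1.subX
        rwa [hwk] at this
      have hY : z.2.erase m ⊆ Finset.range (wk lb q + st la p + 1) := by
        refine subset_range_of_notMem ?_ (Finset.notMem_erase _ _)
        refine (Finset.erase_subset _ _).trans (h1.subY.trans (Finset.range_mono ?_))
        omega
      have hcd : z.1.card + st la p = (z.2.erase m).card + st lb q := by
        have h5 := h1.card
        have h6 := Finset.card_erase_add_one h3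
        omega
      have hE : ∀ i ≤ p, ∀ j ≤ q, (E la lb z.1 z.2 i j ↔ E la lb z.1 (z.2.erase m) i j) := by
        intro i hi j hj
        have k2 : z.2 = insert m (z.2.erase m) := (Finset.insert_erase h3).symm
        conv_lhs => rw [k2]
        exact E_insert_Y (p := p) (q := q) (by omega) hi hj
      rw [mem_XYa]
      refine ⟨isXY_restrict hX hY hcd h1 hE, ?_⟩
      simp only
      rw [E_top0 hc' hX hY hcd]
      exact h4
    · intro z hz
      rw [mem_XYa] at hz
      obtain ⟨h1, h2⟩ := hz
      have h4 := (E_top0 hc' h1.subX h1.subY h1.card).1 h2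
      have h3 : m ∉ z.2 := by
        intro h5
        have := Finset.mem_range.1 (h1.subY h5)
        omega
      have hX : z.1 ⊆ Finset.range (wk la (p + 1) + st lb q + 1) := by
        rw [hwk]; exact h1.subX
      have hY : insert m z.2 ⊆ Finset.range (wk lb q + st la (p + 1) + 1) := by
        rw [Finset.insert_subset_iff]
        exact ⟨Finset.mem_range.2 (by omega), h1.subY.trans (Finset.range_mono (by omega))⟩
      have hcd : z.1.card + st la (p + 1) = (insert m z.2).card + st lb q := by
        rw [Finset.card_insert_of_notMem h3]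
        have := h1.card
        omega
      have hlast : E la lb z.1 (insert m z.2) (p + 1) q := by
        rw [E_top0 hc hX hY hcd, hwk]
        exact h4
      have hE : ∀ i ≤ p, ∀ j ≤ q, (E la lb z.1 (insert m z.2) i j ↔ E la lb z.1 z.2 i j) :=
        fun i hi j hj => E_insert_Y (p := p) (q := q) (by omega) hi hj
      rw [Finset.mem_filter, mem_XYa]
      exact ⟨⟨isXY_row hrow hX hY hcd h1 hE hlast, hlast⟩, Finset.mem_insert_self _ _⟩
    · intro z hz
      rw [Finset.mem_filter] at hz
      simp only [Finset.insert_erase hz.2]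
    · intro z hz
      rw [mem_XYa] at hz
      have h3 : m ∉ z.2 := by
        intro h5
        have := Finset.mem_range.1 (hz.1.subY h5)
        omega
      simp only [Finset.erase_insert h3]
    · intro z hz
      simp only
      rw [← pow_succ', hst, add_assoc]
  have part2 : ∑ z ∈ (XYa la lb CA CB (p + 1) q).filter (fun z => ¬ m ∈ z.2),
      x ^ (z.1.card + st la (p + 1)) =
      ∑ z ∈ XYb la lb CA CB p q, x ^ (z.1.card + st la p) := by
    refine Finset.sum_nbij' (fun z => (insert t z.1, z.2)) (fun z => (z.1.erase t, z.2))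
      ?_ ?_ ?_ ?_ ?_
    · intro z hz
      rw [Finset.mem_filter, mem_XYa] at hz
      obtain ⟨⟨h1, h2⟩, h3⟩ := hz
      have h4 := (E_top0 hc h1.subX h1.subY h1.card).1 h2
      rw [hwk, ← ht] at h4
      have hX : insert t z.1 ⊆ Finset.range (wk la p + st lb q + 1) := by
        rw [Finset.insert_subset_iff]
        refine ⟨Finset.mem_range.2 (by omega), ?_⟩
        have := h1.subX
        rwa [hwk] at this
      have hY : z.2 ⊆ Finset.range (wk lb q + st la p + 1) := by
        refine subset_range_of_notMem (h1.subY.trans (Finset.range_mono ?_)) h3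
        omega
      have hcd : (insert t z.1).card + st la p = z.2.card + st lb q := by
        have h5 := h1.card
        rw [Finset.card_insert_of_notMem h4]
        omega
      have hE : ∀ i ≤ p, ∀ j ≤ q, (E la lb z.1 z.2 i j ↔ E la lb (insert t z.1) z.2 i j) :=
        fun i hi j hj => (E_insert_topX hb hi hj).symm
      rw [mem_XYb]
      refine ⟨isXY_restrict hX hY hcd h1 hE, ?_⟩
      simp only
      rw [E_top0 hc' hX hY hcd, not_not]
      exact Finset.mem_insert_self _ _
    · intro z hz
      rw [mem_XYb] at hz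
      obtain ⟨h1, h2⟩ := hz
      have h4 : t ∈ z.1 := by
        by_contra h
        exact h2 ((E_top0 hc' h1.subX h1.subY h1.card).2 h)
      have h3 : m ∉ z.2 := by
        intro h5
        have := Finset.mem_range.1 (h1.subY h5)
        omega
      have hX : z.1.erase t ⊆ Finset.range (wk la (p + 1) + st lb q + 1) := by
        rw [hwk]; exact (Finset.erase_subset _ _).trans h1.subX
      have hY : z.2 ⊆ Finset.range (wk lb q + st la (p + 1) + 1) :=
        h1.subY.trans (Finset.range_mono (by omega))
      have hcd : (z.1.erase t).card + st la (p + 1) = z.2.card + st lb q := by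
        have h5 := h1.card
        have h6 := Finset.card_erase_add_one h4
        omega
      have hlast : E la lb (z.1.erase t) z.2 (p + 1) q := by
        rw [E_top0 hc hX hY hcd, hwk]
        exact Finset.notMem_erase _ _
      have hE : ∀ i ≤ p, ∀ j ≤ q, (E la lb (z.1.erase t) z.2 i j ↔ E la lb z.1 z.2 i j) := by
        intro i hi j hj
        have k2 : z.1 = insert t (z.1.erase t) := (Finset.insert_erase h4).symm
        conv_rhs => rw [k2]
        exact (E_insert_topX hb hi hj).symm
      rw [Finset.mem_filter, mem_XYa]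
      exact ⟨⟨isXY_row hrow hX hY hcd h1 hE hlast, hlast⟩, h3⟩
    · intro z hz
      rw [Finset.mem_filter, mem_XYa] at hz
      obtain ⟨⟨h1, h2⟩, h3⟩ := hz
      have h4 := (E_top0 hc h1.subX h1.subY h1.card).1 h2
      rw [hwk, ← ht] at h4
      simp only [Finset.erase_insert h4]
    · intro z hz
      rw [mem_XYb] at hz
      obtain ⟨h1, h2⟩ := hz
      have h4 : t ∈ z.1 := by
        by_contra h
        exact h2 ((E_top0 hc' h1.subX h1.subY h1.card).2 h)
      simp only [Finset.insert_erase h4]
    · intro z hz
      rw [Finset.mem_filter, mem_XYa] at hz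
      obtain ⟨⟨h1, h2⟩, h3⟩ := hz
      have h4 := (E_top0 hc h1.subX h1.subY h1.card).1 h2
      rw [hwk, ← ht] at h4
      simp only
      rw [Finset.card_insert_of_notMem h4, hst]
      congr 1
      omega
  unfold gf
  rw [← Finset.sum_filter_add_sum_filter_not (XYa la lb CA CB (p + 1) q) (fun z => m ∈ z.2),
    part1, part2, Finset.mul_sum]

/-- adding an `a` at the end -/
theorem rec_a (x : R) {CA CB : ℕ → ℕ → Prop} {p q : ℕ} (hne : la (p + 1) ≠ lb q)
    (hrow : ∀ j ≤ q, CA (p + 1) j) :
    gf x (st la (p + 1)) (XYa la lb CA CB (p + 1) q) =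
      x ^ (if la (p + 1) < la p then 1 else 0) * gf x (st la p) (XYa la lb CA CB p q) +
      x ^ (if la (p + 1) < lb q then 1 else 0) * gf x (st la p) (XYb la lb CA CB p q) := by
  by_cases hs : la (p + 1) < la p
  · by_cases hc : la (p + 1) < lb q
    · rw [rec_S1 x hrow hs hc, gf_XY, if_pos hs, if_pos hc, pow_one, mul_add]
    · rw [rec_S0 x hne hrow hs hc, if_pos hs, if_neg hc, pow_one, pow_zero, one_mul]
  · have hst : st la (p + 1) = st la p := by rw [st, if_neg hs, add_zero]
    by_cases hc : la (p + 1) < lb q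
    · rw [rec_W1 x hrow hs hc, if_neg hs, if_pos hc, pow_one, pow_zero, one_mul]
    · rw [rec_W0 hrow hs hc, hst, gf_XY, if_neg hs, if_neg hc, pow_zero, one_mul, one_mul]

end Pool.Agent.Helper16.PEul
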