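import Pool.Agent.Helper16.PEul.Rec

/-!
The symmetric recursion and the starting values.
-/

namespace Pool.Agent.Helper16.PEul

variable {la lb : ℕ → ℕ} {R : Type*} [CommSemiring R]

theorem isXY_swap (h : ∀ i j, la i ≠ lb j) {CA CB : ℕ → ℕ → Prop} {p q : ℕ} {X Y : Finset ℕ} :
    IsXY la lb CA CB p q (X, Y) ↔
      IsXY lb la (fun j i => CB i j) (fun j i => CA i j) q p (Y, X) := by
  constructor
  · intro hz
    refine ⟨hz.subY, hz.subX, hz.card.symm, ?_, ?_⟩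
    · intro j hj i hi hE
      exact hz.allB i hi j hj ((E_swap h X Y i j).1 hE)
    · intro j hj i hi hE
      refine hz.allA i hi j hj ?_
      by_contra hcon
      exact hE ((E_swap h X Y i j).2 hcon)
  · intro hz
    refine ⟨hz.subY, hz.subX, hz.card.symm, ?_, ?_⟩
    · intro i hi j hj hE
      refine hz.allB j hj i hi ?_
      intro h'
      exact (E_swap h X Y i j).1 h' hE
    · intro i hi j hj hE
      exact hz.allA j hj i hi ((E_swap h X Y i j).2 hE)

theorem gf_b_swap (x : R) (h : ∀ i j, la i ≠ lb j) (CA CB : ℕ → ℕ → Prop) (p q : ℕ) :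
    gf x (st la p) (XYb la lb CA CB p q) =
      gf x (st lb q) (XYa lb la (fun j i => CB i j) (fun j i => CA i j) q p) := by
  unfold gf
  refine Finset.sum_nbij' (fun z => (z.2, z.1)) (fun z => (z.2, z.1)) ?_ ?_ ?_ ?_ ?_
  · rintro ⟨X, Y⟩ hz
    rw [mem_XYb] at hz
    rw [mem_XYa]
    exact ⟨(isXY_swap h).1 hz.1, (E_swap h X Y p q).2 hz.2⟩
  · rintro ⟨Y, X⟩ hz
    rw [mem_XYa] at hz
    rw [mem_XYb]
    exact ⟨(isXY_swap h).2 hz.1, (E_swap h X Y p q).1 hz.2⟩
  · rintro ⟨X, Y⟩ _; rfl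
  · rintro ⟨X, Y⟩ _; rfl
  · rintro ⟨X, Y⟩ hz
    rw [mem_XYb] at hz
    simp only
    rw [hz.1.card]

theorem gf_a_swap (x : R) (h : ∀ i j, la i ≠ lb j) (CA CB : ℕ → ℕ → Prop) (p q : ℕ) :
    gf x (st la p) (XYa la lb CA CB p q) =
      gf x (st lb q) (XYb lb la (fun j i => CB i j) (fun j i => CA i j) q p) := by
  unfold gf
  refine Finset.sum_nbij' (fun z => (z.2, z.1)) (fun z => (z.2, z.1)) ?_ ?_ ?_ ?_ ?_
  · rintro ⟨X, Y⟩ hz
    rw [mem_XYa] at hz
    rw [mem_XYb]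
    exact ⟨(isXY_swap h).1 hz.1, fun h' => (E_swap h X Y p q).1 h' hz.2⟩
  · rintro ⟨Y, X⟩ hz
    rw [mem_XYb] at hz
    rw [mem_XYa]
    refine ⟨(isXY_swap h).2 hz.1, ?_⟩
    by_contra hcon
    exact hz.2 ((E_swap h X Y p q).2 hcon)
  · rintro ⟨X, Y⟩ _; rfl
  · rintro ⟨X, Y⟩ _; rfl
  · rintro ⟨X, Y⟩ hz
    rw [mem_XYa] at hz
    simp only
    rw [hz.1.card]

/-- adding a `b` at the end -/
theorem rec_b (x : R) (h : ∀ i j, la i ≠ lb j) {CA CB : ℕ → ℕ → Prop} {p q : ℕ}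
    (hrow : ∀ i ≤ p, CB i (q + 1)) :
    gf x (st la p) (XYb la lb CA CB p (q + 1)) =
      x ^ (if lb (q + 1) < lb q then 1 else 0) * gf x (st la p) (XYb la lb CA CB p q) +
      x ^ (if lb (q + 1) < la p then 1 else 0) * gf x (st la p) (XYa la lb CA CB p q) := by
  rw [gf_b_swap x h, gf_b_swap x h, gf_a_swap x h]
  exact rec_a x (fun e => h _ _ e.symm) hrow

theorem gf_empty (x : R) (s : ℕ) : gf x s ∅ = 0 := by
  unfold gf
  exact Finset.sum_empty

theorem gf_a_zero (x : R) {CA CB : ℕ → ℕ → Prop} {p q : ℕ} (s : ℕ)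
    (hrow : ¬ ∀ j ≤ q, CA p j) : gf x s (XYa la lb CA CB p q) = 0 := by
  rw [XYa_empty_of_not hrow, gf_empty]

theorem gf_b_zero (x : R) (h : ∀ i j, la i ≠ lb j) {CA CB : ℕ → ℕ → Prop} {p q : ℕ}
    (hrow : ¬ ∀ i ≤ p, CB i q) : gf x (st la p) (XYb la lb CA CB p q) = 0 := by
  rw [gf_b_swap x h]
  exact gf_a_zero x _ hrow

theorem XYb_zero {CA CB : ℕ → ℕ → Prop} (hCB : ¬ CB 0 0) : XYb la lb CA CB 0 0 = ∅ := by
  rw [Finset.eq_empty_iff_forall_notMem]
  intro z hz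
  rw [mem_XYb] at hz
  exact hCB (hz.1.allB 0 le_rfl 0 le_rfl hz.2)

theorem XYa_zero {CA CB : ℕ → ℕ → Prop} (hl : lb 0 < la 0) (hCA : CA 0 0) :
    XYa la lb CA CB 0 0 = {(∅, ∅)} := by
  have hc : ¬ la 0 < lb 0 := not_lt.2 hl.le
  ext z
  rw [mem_XYa, Finset.mem_singleton]
  constructor
  · rintro ⟨h1, h2⟩
    have h3 := (E_top0 hc h1.subX h1.subY h1.card).1 h2
    have hX := subset_range_of_notMem h1.subX h3
    have hX' : z.1 = ∅ := by
      have e : wk la 0 + st lb 0 = 0 := rfl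
      rw [e, Finset.range_zero] at hX
      exact Finset.subset_empty.1 hX
    have hcd := h1.card
    rw [hX'] at hcd
    have hY' : z.2 = ∅ := by
      rw [← Finset.card_eq_zero]
      have e1 : st la 0 = 0 := rfl
      have e2 : st lb 0 = 0 := rfl
      rw [e1, e2, Finset.card_empty] at hcd
      omega
    exact Prod.ext hX' hY'
  · rintro rfl
    have hE : E la lb ∅ ∅ 0 0 := by
      rw [E_top0 hc (Finset.empty_subset _) (Finset.empty_subset _) rfl]
      exact Finset.notMem_empty _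
    refine ⟨⟨Finset.empty_subset _, Finset.empty_subset _, rfl, ?_, ?_⟩, hE⟩
    · intro i hi j hj _
      have e1 : i = 0 := by omega
      have e2 : j = 0 := by omega
      subst e1; subst e2; exact hCA
    · intro i hi j hj h'
      have e1 : i = 0 := by omega
      have e2 : j = 0 := by omega
      subst e1; subst e2; exact absurd hE h'

theorem gf_a_start (x : R) {CA CB : ℕ → ℕ → Prop} (hl : lb 0 < la 0) (hCA : CA 0 0) :
    gf x (st la 0) (XYa la lb CA CB 0 0) = 1 := by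
  rw [XYa_zero hl hCA]
  unfold gf
  rw [Finset.sum_singleton]
  exact pow_zero x

end Pool.Agent.Helper16.PEul
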