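import Pool.Agent.Helper16.PEul.LogConc

/-!
Words of the two chains `a 1, a 2, ...` and `b 1, b 2, ...` of natural numbers (elements are
their own labels), as lists whose head is the last letter.
-/

namespace Pool.Agent.Helper16.PEul

/-- number of descents of a word (head of the list = last letter) -/
def des : List ℕ → ℕ
  | [] => 0
  | [_] => 0
  | x :: y :: t => (if x < y then 1 else 0) + des (y :: t)

variable (le : ℕ → ℕ → Prop) (a b : ℕ → ℕ)

/-- labels of the first chain, with a sentinel -/
def labA : ℕ → ℕ
  | 0 => 1
  | i + 1 => a (i + 1) + 2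

/-- labels of the second chain, with a sentinel -/
def labB : ℕ → ℕ
  | 0 => 0
  | j + 1 => b (j + 1) + 2

/-- `b j` may stand before `a i` -/
def CA (i j : ℕ) : Prop := j = 0 ∨ (i ≠ 0 ∧ ¬ le (a i) (b j))

/-- `a i` may stand before `b j` -/
def CB (i j : ℕ) : Prop := j ≠ 0 ∧ (i = 0 ∨ ¬ le (b j) (a i))

open Classical in
/-- words with last indices `p`, `q`: those ending with an `a` (or empty) and those ending
with a `b` -/
noncomputable def WW : ℕ → ℕ → Finset (List ℕ) × Finset (List ℕ)
  | 0, 0 => ({[]}, ∅)
  | 0, q + 1 =>
      (∅, if ∀ i ≤ 0, CB le a b i (q + 1) then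
        ((WW 0 q).1 ∪ (WW 0 q).2).image (fun l => b (q + 1) :: l) else ∅)
  | p + 1, 0 =>
      (if ∀ j ≤ 0, CA le a b (p + 1) j then
        ((WW p 0).1 ∪ (WW p 0).2).image (fun l => a (p + 1) :: l) else ∅, ∅)
  | p + 1, q + 1 =>
      (if ∀ j ≤ q + 1, CA le a b (p + 1) j then
        ((WW p (q + 1)).1 ∪ (WW p (q + 1)).2).image (fun l => a (p + 1) :: l) else ∅,
       if ∀ i ≤ p + 1, CB le a b i (q + 1) then
        ((WW (p + 1) q).1 ∪ (WW (p + 1) q).2).image (fun l => b (q + 1) :: l) else ∅)
termination_by p q => p + q

open Classical in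
theorem WW_a (p q : ℕ) : (WW le a b (p + 1) q).1 =
    if ∀ j ≤ q, CA le a b (p + 1) j then
      ((WW le a b p q).1 ∪ (WW le a b p q).2).image (fun l => a (p + 1) :: l) else ∅ := by
  cases q with
  | zero =>
    rw [WW]
    by_cases h : ∀ j ≤ 0, CA le a b (p + 1) j
    · simp only [if_pos h]
    · simp only [if_neg h]
  | succ q => rw [WW]

open Classical in
theorem WW_b (p q : ℕ) : (WW le a b p (q + 1)).2 =
    if ∀ i ≤ p, CB le a b i (q + 1) then
      ((WW le a b p q).1 ∪ (WW le a b p q).2).image (fun l => b (q + 1) :: l) else ∅ := by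
  cases p with
  | zero => rw [WW]
  | succ p => rw [WW]

theorem WW_zero_a (q : ℕ) : (WW le a b 0 (q + 1)).1 = ∅ := by rw [WW]

theorem WW_zero_b (p : ℕ) : (WW le a b p 0).2 = ∅ := by
  cases p with
  | zero => rw [WW]
  | succ p => rw [WW]

theorem WW_zero : (WW le a b 0 0).1 = {[]} := by rw [WW]

variable {le a b}

theorem head_a {p q : ℕ} {l : List ℕ} (h : l ∈ (WW le a b (p + 1) q).1) :
    ∃ t, l = a (p + 1) :: t := by
  classical
  rw [WW_a] at h
  split_ifs at h with h1
  · rw [Finset.mem_image] at h
    obtain ⟨t, _, rfl⟩ := h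
    exact ⟨t, rfl⟩
  · exact absurd h (Finset.notMem_empty _)

theorem head_b {p q : ℕ} {l : List ℕ} (h : l ∈ (WW le a b p (q + 1)).2) :
    ∃ t, l = b (q + 1) :: t := by
  classical
  rw [WW_b] at h
  split_ifs at h with h1
  · rw [Finset.mem_image] at h
    obtain ⟨t, _, rfl⟩ := h
    exact ⟨t, rfl⟩
  · exact absurd h (Finset.notMem_empty _)

theorem WW_disjoint (hab : ∀ i j, a i ≠ b j) (p q : ℕ) :
    Disjoint (WW le a b p q).1 (WW le a b p q).2 := by
  rw [Finset.disjoint_left]
  intro l h1 h2
  cases q with
  | zero => rw [WW_zero_b] at h2; exact absurd h2 (Finset.notMem_empty _)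
  | succ q =>
    cases p with
    | zero => rw [WW_zero_a] at h1; exact absurd h1 (Finset.notMem_empty _)
    | succ p =>
      obtain ⟨t, rfl⟩ := head_a h1
      obtain ⟨t', ht'⟩ := head_b h2
      exact hab _ _ (List.cons.inj ht').1

variable {R : Type*} [CommSemiring R]

/-- generating function of a set of words -/
noncomputable def gw (x : R) (S : Finset (List ℕ)) : R := ∑ l ∈ S, x ^ des l

theorem gw_union (x : R) {S T : Finset (List ℕ)} (h : Disjoint S T) :
    gw x (S ∪ T) = gw x S + gw x T := Finset.sum_union h

theorem gw_image_cons (x : R) (c : ℕ) (e : ℕ) (S : Finset (List ℕ))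
    (h : ∀ l ∈ S, des (c :: l) = e + des l) :
    gw x (S.image (fun l => c :: l)) = x ^ e * gw x S := by
  unfold gw
  rw [Finset.sum_image (fun l _ l' _ hl => (List.cons.inj hl).2), Finset.mul_sum]
  refine Finset.sum_congr rfl fun l hl => ?_
  rw [h l hl, pow_add]

theorem des_cons_a (c : ℕ) {p q : ℕ} {l : List ℕ} (h : l ∈ (WW le a b p q).1) :
    des (c :: l) = (if c + 2 < labA a p then 1 else 0) + des l := by
  cases p with
  | zero =>
    cases q with
    | zero =>
      rw [WW_zero, Finset.mem_singleton] at h
      subst h
      have : ¬ c + 2 < labA a 0 := by rw [labA]; omega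
      rw [if_neg this]
      rfl
    | succ q => rw [WW_zero_a] at h; exact absurd h (Finset.notMem_empty _)
  | succ p =>
    obtain ⟨t, rfl⟩ := head_a h
    rw [des, labA]
    congr 1
    by_cases hc : c < a (p + 1)
    · rw [if_pos hc, if_pos (by omega)]
    · rw [if_neg hc, if_neg (by omega)]

theorem des_cons_b (c : ℕ) {p q : ℕ} {l : List ℕ} (h : l ∈ (WW le a b p q).2) :
    des (c :: l) = (if c + 2 < labB b q then 1 else 0) + des l := by
  cases q with
  | zero => rw [WW_zero_b] at h; exact absurd h (Finset.notMem_empty _)
  | succ q =>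
    obtain ⟨t, rfl⟩ := head_b h
    rw [des, labB]
    congr 1
    by_cases hc : c < b (q + 1)
    · rw [if_pos hc, if_pos (by omega)]
    · rw [if_neg hc, if_neg (by omega)]

theorem lab_ne (hab : ∀ i j, a i ≠ b j) (i j : ℕ) : labA a i ≠ labB b j := by
  cases i with
  | zero => cases j with
    | zero => rw [labA, labB]; omega
    | succ j => rw [labA, labB]; omega
  | succ i => cases j with
    | zero => rw [labA, labB]; omega
    | succ j =>
      rw [labA, labB]
      have := hab (i + 1) (j + 1)
      omega

/-- the words and the encoding pairs have the same generating functions -/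
theorem gw_eq_gf (x : R) (hab : ∀ i j, a i ≠ b j) : ∀ N p q : ℕ, p + q = N →
    gw x (WW le a b p q).1 =
      gf x (st (labA a) p) (XYa (labA a) (labB b) (CA le a b) (CB le a b) p q) ∧
    gw x (WW le a b p q).2 =
      gf x (st (labA a) p) (XYb (labA a) (labB b) (CA le a b) (CB le a b) p q) := by
  classical
  intro N
  induction N with
  | zero =>
    intro p q hpq
    have hp : p = 0 := by omega
    have hq : q = 0 := by omega
    subst hp; subst hq
    constructor
    · rw [gf_a_start x (by rw [labA, labB]; omega) (Or.inl rfl), WW_zero]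
      unfold gw
      rw [Finset.sum_singleton]
      exact pow_zero x
    · rw [XYb_zero (fun h => h.1 rfl), gf_empty, WW_zero_b]
      exact Finset.sum_empty
  | succ N ih =>
    intro p q hpq
    constructor
    · cases p with
      | zero =>
        cases q with
        | zero => omega
        | succ q =>
          rw [WW_zero_a, gf_a_zero]
          · exact Finset.sum_empty
          · intro h
            rcases h (q + 1) le_rfl with h1 | h1
            · omega
            · exact h1.1 rfl
      | succ p =>
        obtain ⟨i1, i2⟩ := ih p q (by omega)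
        rw [WW_a]
        by_cases hrow : ∀ j ≤ q, CA le a b (p + 1) j
        · rw [if_pos hrow, Finset.image_union, gw_union, rec_a x (lab_ne hab _ _) hrow, ← i1, ← i2]
          · congr 1
            · exact gw_image_cons x _ _ _ (fun l hl => des_cons_a (a (p + 1)) hl)
            · exact gw_image_cons x _ _ _ (fun l hl => des_cons_b (a (p + 1)) hl)
          · rw [Finset.disjoint_left]
            intro l h1 h2
            rw [Finset.mem_image] at h1 h2
            obtain ⟨t, ht, rfl⟩ := h1
            obtain ⟨t', ht', e⟩ := h2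
            rw [(List.cons.inj e).2] at ht'
            exact Finset.disjoint_left.1 (WW_disjoint hab p q) ht ht'
        · rw [if_neg hrow, gf_a_zero x _ hrow]
          exact Finset.sum_empty
    · cases q with
      | zero =>
        rw [WW_zero_b, gf_b_zero x (lab_ne hab)]
        · exact Finset.sum_empty
        · intro h
          exact (h 0 (Nat.zero_le _)).1 rfl
      | succ q =>
        obtain ⟨i1, i2⟩ := ih p q (by omega)
        rw [WW_b]
        by_cases hrow : ∀ i ≤ p, CB le a b i (q + 1)
        · rw [if_pos hrow, Finset.image_union, gw_union, rec_b x (lab_ne hab) hrow, ← i1, ← i2,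
            add_comm]
          · congr 1
            · exact gw_image_cons x _ _ _ (fun l hl => des_cons_b (b (q + 1)) hl)
            · exact gw_image_cons x _ _ _ (fun l hl => des_cons_a (b (q + 1)) hl)
          · rw [Finset.disjoint_left]
            intro l h1 h2
            rw [Finset.mem_image] at h1 h2
            obtain ⟨t, ht, rfl⟩ := h1
            obtain ⟨t', ht', e⟩ := h2
            rw [(List.cons.inj e).2] at ht'
            exact Finset.disjoint_left.1 (WW_disjoint hab p q) ht ht'
        · rw [if_neg hrow, gf_b_zero x (lab_ne hab) hrow]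
          exact Finset.sum_empty

open Polynomial in
/-- the number of words with `k` descents is the number of encoding pairs -/
theorem card_words (hab : ∀ i j, a i ≠ b j) (p q k : ℕ) :
    (((WW le a b p q).1 ∪ (WW le a b p q).2).filter (fun l => des l = k)).card =
      (slice (labA a) (labB b) (CA le a b) (CB le a b) p q k).card := by
  classical
  obtain ⟨i1, i2⟩ := gw_eq_gf (le := le) (X : ℕ[X]) hab (p + q) p q rfl
  have h1 : gw (X : ℕ[X]) ((WW le a b p q).1 ∪ (WW le a b p q).2) =
      gf (X : ℕ[X]) (st (labA a) p) (XY (labA a) (labB b) (CA le a b) (CB le a b) p q) := by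
    rw [gw_union _ (WW_disjoint hab p q), i1, i2, ← gf_XY]
  have h2 := congrArg (fun f : ℕ[X] => f.coeff k) h1
  simp only [gw, gf, Polynomial.finsetSum_coeff, Polynomial.coeff_X_pow] at h2
  rw [Finset.card_filter]
  unfold slice
  rw [Finset.card_filter]
  calc _ = _ := by
        refine Finset.sum_congr rfl fun l _ => ?_
        by_cases h : des l = k
        · rw [if_pos h, if_pos h.symm]
        · rw [if_neg h, if_neg (fun e => h e.symm)]
    _ = _ := h2
    _ = _ := by
        refine Finset.sum_congr rfl fun z _ => ?_
        by_cases h : z.1.card + st (labA a) p = k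
        · rw [if_pos h, if_pos h.symm]
        · rw [if_neg h, if_neg (fun e => h e.symm)]

end Pool.Agent.Helper16.PEul
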